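import Mathlib

/-!
# The free boundary model of an electrostatic actuator: definitions
-/

set_option autoImplicit false

open MeasureTheory Set

namespace Pool.Agent.W2helper23.Mems

/-- The region `Ω(U) = {(x, z) : -1 < x < 1, -1 < z < U x}` between the ground plate `z = -1` and the
plate `z = U x`. -/
def Omega (U : ℝ → ℝ) : Set (ℝ × ℝ) := {p | p.1 ∈ Ioo (-1 : ℝ) 1 ∧ -1 < p.2 ∧ p.2 < U p.1}

/-- The closed region `{(x, z) : -1 ≤ x ≤ 1, -1 ≤ z ≤ U x}`, the closure of `Ω(U)`. -/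
def ClosedOmega (U : ℝ → ℝ) : Set (ℝ × ℝ) :=
  {p | p.1 ∈ Icc (-1 : ℝ) 1 ∧ -1 ≤ p.2 ∧ p.2 ≤ U p.1}

/-- `Ω(U)` together with the graph `{(x, U x) : -1 < x < 1}`. -/
def OmegaTop (U : ℝ → ℝ) : Set (ℝ × ℝ) :=
  {p | p.1 ∈ Ioo (-1 : ℝ) 1 ∧ -1 < p.2 ∧ p.2 ≤ U p.1}

/-- `Ψ` is the potential `ψ_U`: it is continuous on the closed region, of class `C²` in `Ω(U)`, its
partial derivatives `Ψx`, `Ψz` extend continuously to the graph of `U`,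
`ε² ∂_x² Ψ + ∂_z² Ψ = 0` in `Ω(U)` and `Ψ (x, z) = (1 + z) / (1 + U x)` on the boundary of `Ω(U)`. -/
structure IsPotential (ε : ℝ) (U : ℝ → ℝ) (Ψ Ψx Ψz : ℝ × ℝ → ℝ) : Prop where
  continuousOn : ContinuousOn Ψ (ClosedOmega U)
  contDiffOn : ContDiffOn ℝ 2 Ψ (Omega U)
  deriv_x : ∀ x z : ℝ, (x, z) ∈ Omega U → Ψx (x, z) = deriv (fun y => Ψ (y, z)) x
  deriv_z : ∀ x z : ℝ, (x, z) ∈ Omega U → Ψz (x, z) = deriv (fun y => Ψ (x, y)) z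
  continuousOn_x : ContinuousOn Ψx (OmegaTop U)
  continuousOn_z : ContinuousOn Ψz (OmegaTop U)
  equation : ∀ x z : ℝ, (x, z) ∈ Omega U →
    ε ^ 2 * deriv (fun y => Ψx (y, z)) x + deriv (fun y => Ψz (x, y)) z = 0
  boundary : ∀ x z : ℝ, (x, z) ∈ ClosedOmega U → (x, z) ∉ Omega U → Ψ (x, z) = (1 + z) / (1 + U x)

/-- The electrostatic force `g_ε(U)(x) = ε² (∂_x Ψ (x, U x))² + (∂_z Ψ (x, U x))²`. -/
def force (ε : ℝ) (U : ℝ → ℝ) (Ψx Ψz : ℝ × ℝ → ℝ) (x : ℝ) : ℝ :=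
  ε ^ 2 * (Ψx (x, U x)) ^ 2 + (Ψz (x, U x)) ^ 2

/-- The test functions: `φ` of class `C⁴` with `φ(±1) = φ'(±1) = 0`. -/
def IsTest (φ : ℝ → ℝ) : Prop :=
  ContDiff ℝ 4 φ ∧ φ (-1) = 0 ∧ φ 1 = 0 ∧ deriv φ (-1) = 0 ∧ deriv φ 1 = 0

/-- `(u, ψ)` is a solution on the time interval `[0, T)` of
`γ² ∂_t² u + ∂_t u + β ∂_x⁴ u - τ ∂_x² u = -λ g_ε(u)`, `u (t, ±1) = ∂_x u (t, ±1) = 0`,
`u (0, x) = γ ∂_t u (0, x) = 0`, with `u > -1`.  Here `u` is continuous, `u (t, ·)` is of class `C²`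
on `[-1, 1]`, `ψ t` is the potential of `u (t, ·)`, and the evolution equation holds in the weak form
`γ² ⟨∂_t u(t), φ⟩ + ⟨u(t), φ⟩ = - ∫_0^t (⟨u(s), β φ'''' - τ φ''⟩ + λ ⟨g_ε(u(s)), φ⟩) ds`
for all test functions `φ`, where `v t = ⟨∂_t u(t), φ⟩` is the derivative of `⟨u(t), φ⟩` (it does not
occur if `γ = 0`).  Strong and classical solutions are solutions in this sense. -/
structure IsSolution (β τ γ ε lam T : ℝ) (u : ℝ → ℝ → ℝ) (ψ ψx ψz : ℝ → ℝ × ℝ → ℝ) : Prop where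
  continuousOn : ContinuousOn (fun p : ℝ × ℝ => u p.1 p.2) (Ico 0 T ×ˢ Icc (-1) 1)
  above : ∀ t ∈ Ico 0 T, ∀ x ∈ Icc (-1 : ℝ) 1, -1 < u t x
  contDiffOn : ∀ t ∈ Ico 0 T, ContDiffOn ℝ 2 (u t) (Icc (-1) 1)
  clamped : ∀ t ∈ Ico 0 T, u t (-1) = 0 ∧ u t 1 = 0 ∧
    derivWithin (u t) (Icc (-1) 1) (-1) = 0 ∧ derivWithin (u t) (Icc (-1) 1) 1 = 0
  initial : ∀ x ∈ Icc (-1 : ℝ) 1, u 0 x = 0
  potential : ∀ t ∈ Ico 0 T, IsPotential ε (u t) (ψ t) (ψx t) (ψz t)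
  integrable : ∀ t ∈ Ico 0 T, IntervalIntegrable (force ε (u t) (ψx t) (ψz t)) volume (-1) 1
  weak : ∀ φ : ℝ → ℝ, IsTest φ → ∃ v : ℝ → ℝ,
    (γ ≠ 0 → ∀ t ∈ Ico 0 T,
      HasDerivWithinAt (fun s => ∫ x in (-1 : ℝ)..1, u s x * φ x) (v t) (Ico 0 T) t) ∧
    ∀ t ∈ Ico 0 T,
      IntervalIntegrable (fun s => ∫ x in (-1 : ℝ)..1, force ε (u s) (ψx s) (ψz s) x * φ x)
        volume 0 t ∧
      γ ^ 2 * v t + ∫ x in (-1 : ℝ)..1, u t x * φ x =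
        -∫ s in (0 : ℝ)..t,
          ((∫ x in (-1 : ℝ)..1, u s x * (β * iteratedDeriv 4 φ x - τ * iteratedDeriv 2 φ x)) +
            lam * ∫ x in (-1 : ℝ)..1, force ε (u s) (ψx s) (ψz s) x * φ x)

end Pool.Agent.W2helper23.Mems
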