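import Mathlib

set_option autoImplicit false

open MeasureTheory Set Filter Topology

namespace Pool.Agent.W2helper23.Mems

/-- The closed region under the graph over `[-b, b]`. -/
def RegC (b : ℝ) (U : ℝ → ℝ) : Set (ℝ × ℝ) := {p | p.1 ∈ Icc (-b) b ∧ -1 ≤ p.2 ∧ p.2 ≤ U p.1}

/-- The open region under the graph over `(-b, b)`. -/
def RegO (b : ℝ) (U : ℝ → ℝ) : Set (ℝ × ℝ) := {p | p.1 ∈ Ioo (-b) b ∧ -1 < p.2 ∧ p.2 < U p.1}

/-- Divergence theorem for a region under a graph. -/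
lemma graph_div {b : ℝ} (hb : 0 < b) {U U' : ℝ → ℝ} (hU : ∀ x ∈ Icc (-b) b, HasDerivAt U (U' x) x)
    (hU'c : ContinuousOn U' (Icc (-b) b)) (hU'd : ∀ x ∈ Ioo (-b) b, DifferentiableAt ℝ U' x)
    (hpos : ∀ x ∈ Icc (-b) b, -1 < U x) {V1 V2 Q : ℝ × ℝ → ℝ}
    (h1c : ContinuousOn V1 (RegC b U)) (h2c : ContinuousOn V2 (RegC b U))
    (hd1 : ∀ p ∈ RegO b U, DifferentiableAt ℝ V1 p) (hd2 : ∀ p ∈ RegO b U, DifferentiableAt ℝ V2 p)
    (hQ : ∀ p ∈ RegO b U, fderiv ℝ V1 p (1, 0) + fderiv ℝ V2 p (0, 1) = Q p)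
    (hQc : ContinuousOn Q (RegC b U))
    (hbot : ∀ x ∈ Icc (-b) b, V2 (x, -1) = 0)
    (hl : ∀ z, (-b, z) ∈ RegC b U → V1 (-b, z) = 0) (hr : ∀ z, (b, z) ∈ RegC b U → V1 (b, z) = 0) :
    ∫ x in (-b)..b, ∫ s in (0 : ℝ)..1, (1 + U x) * Q (x, -1 + (1 + U x) * s) =
      ∫ x in (-b)..b, (V2 (x, U x) - U' x * V1 (x, U x)) := by
  classical
  set Φ : ℝ × ℝ → ℝ × ℝ := fun p => (p.1, -1 + (1 + U p.1) * p.2) with hΦ
  set f : ℝ × ℝ → ℝ := fun p => (1 + U p.1) * V1 (Φ p) with hf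
  set g : ℝ × ℝ → ℝ := fun p => V2 (Φ p) - U' p.1 * p.2 * V1 (Φ p) with hg
  set I : Set (ℝ × ℝ) := Ioo (-b) b ×ˢ Ioo (0 : ℝ) 1 with hI
  set J : Set (ℝ × ℝ) := Icc (-b) b ×ˢ Icc (0 : ℝ) 1 with hJ
  have hbb : -b ≤ b := by linarith
  have hUc : ContinuousOn U (Icc (-b) b) := fun x hx => (hU x hx).continuousAt.continuousWithinAt
  have hUf : ContinuousOn (fun p : ℝ × ℝ => U p.1) J :=
    hUc.comp continuous_fst.continuousOn (fun p hp => hp.1)
  have hU'f : ContinuousOn (fun p : ℝ × ℝ => U' p.1) J :=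
    hU'c.comp continuous_fst.continuousOn (fun p hp => hp.1)
  have hΦc : ContinuousOn Φ J := by
    apply ContinuousOn.prodMk continuous_fst.continuousOn
    exact continuousOn_const.add ((continuousOn_const.add hUf).mul continuous_snd.continuousOn)
  have hΦJ : ∀ p ∈ J, Φ p ∈ RegC b U := by
    rintro p ⟨h1, h2, h3⟩
    have h4 := hpos p.1 h1
    refine ⟨h1, ?_, ?_⟩
    · have : 0 ≤ (1 + U p.1) * p.2 := mul_nonneg (by linarith) h2
      simp only [hΦ]; linarith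
    · simp only [hΦ]; nlinarith
  have hΦI : ∀ p ∈ I, Φ p ∈ RegO b U := by
    rintro p ⟨h1, h2, h3⟩
    have h4 := hpos p.1 (Ioo_subset_Icc_self h1)
    refine ⟨h1, ?_, ?_⟩
    · have : 0 < (1 + U p.1) * p.2 := mul_pos (by linarith) h2
      simp only [hΦ]; linarith
    · simp only [hΦ]; nlinarith
  have hV1Φ : ContinuousOn (fun p => V1 (Φ p)) J := h1c.comp hΦc hΦJ
  have hV2Φ : ContinuousOn (fun p => V2 (Φ p)) J := h2c.comp hΦc hΦJ
  have hQΦ : ContinuousOn (fun p => Q (Φ p)) J := hQc.comp hΦc hΦJ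
  have hfc : ContinuousOn f J := (continuousOn_const.add hUf).mul hV1Φ
  have hgc : ContinuousOn g J := hV2Φ.sub ((hU'f.mul continuous_snd.continuousOn).mul hV1Φ)
  -- derivatives
  have hder : ∀ p ∈ I, DifferentiableAt ℝ f p ∧ DifferentiableAt ℝ g p ∧
      fderiv ℝ f p (1, 0) + fderiv ℝ g p (0, 1) = (1 + U p.1) * Q (Φ p) := by
    intro p hp
    have hx : p.1 ∈ Icc (-b) b := Ioo_subset_Icc_self hp.1
    have hO := hΦI p hp
    have d1 := (hd1 _ hO).hasFDerivAt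
    have d2 := (hd2 _ hO).hasFDerivAt
    set D1 := fderiv ℝ V1 (Φ p) with hD1
    set D2 := fderiv ℝ V2 (Φ p) with hD2
    have dU : HasFDerivAt (fun p : ℝ × ℝ => U p.1)
        ((U' p.1) • ContinuousLinearMap.fst ℝ ℝ ℝ) p :=
      (hU p.1 hx).comp_hasFDerivAt p hasFDerivAt_fst
    obtain ⟨U2, hU2⟩ : ∃ c, HasDerivAt U' c p.1 := ⟨_, (hU'd p.1 hp.1).hasDerivAt⟩
    have dU' : HasFDerivAt (fun p : ℝ × ℝ => U' p.1)
        (U2 • ContinuousLinearMap.fst ℝ ℝ ℝ) p :=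
      hU2.comp_hasFDerivAt p hasFDerivAt_fst
    have dΦ2 : HasFDerivAt (fun p : ℝ × ℝ => -1 + (1 + U p.1) * p.2)
        ((1 + U p.1) • ContinuousLinearMap.snd ℝ ℝ ℝ +
          p.2 • ((U' p.1) • ContinuousLinearMap.fst ℝ ℝ ℝ)) p :=
      ((dU.const_add 1).mul hasFDerivAt_snd).const_add (-1)
    have dΦ : HasFDerivAt Φ ((ContinuousLinearMap.fst ℝ ℝ ℝ).prod
        ((1 + U p.1) • ContinuousLinearMap.snd ℝ ℝ ℝ +
          p.2 • ((U' p.1) • ContinuousLinearMap.fst ℝ ℝ ℝ))) p :=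
      hasFDerivAt_fst.prodMk dΦ2
    have e1 := d1.comp p dΦ
    have e2 := d2.comp p dΦ
    have df := (dU.const_add 1).mul e1
    have dg := e2.sub ((dU'.mul hasFDerivAt_snd).mul e1)
    have hf' : HasFDerivAt f _ p := df
    have hg' : HasFDerivAt g _ p := dg
    refine ⟨hf'.differentiableAt, hg'.differentiableAt, ?_⟩
    rw [hf'.fderiv, hg'.fderiv, ← hQ _ hO]
    simp only [add_apply, smul_apply, Pi.mul_apply,
      ContinuousLinearMap.comp_apply, ContinuousLinearMap.prod_apply, ContinuousLinearMap.coe_fst',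
      ContinuousLinearMap.coe_snd', smul_eq_mul, sub_apply, mul_zero, mul_one,
      zero_add, add_zero, Function.comp_apply]
    have l1 : D1 ((1 : ℝ), p.2 * U' p.1) = D1 (1, 0) + (p.2 * U' p.1) * D1 (0, 1) := by
      have : ((1 : ℝ), p.2 * U' p.1) = (1, 0) + (p.2 * U' p.1) • ((0 : ℝ), (1 : ℝ)) := by
        ext <;> simp
      rw [this, map_add, map_smul, smul_eq_mul]
    have l2 : ∀ D : ℝ × ℝ →L[ℝ] ℝ, D ((0 : ℝ), 1 + U p.1) = (1 + U p.1) * D (0, 1) := by
      intro D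
      have : ((0 : ℝ), 1 + U p.1) = (1 + U p.1) • ((0 : ℝ), (1 : ℝ)) := by
        ext <;> simp
      rw [this, map_smul, smul_eq_mul]
    rw [l1, l2, l2]
    simp only [← hD1, ← hD2]
    ring
  have key := MeasureTheory.integral2_divergence_prod_of_hasFDerivAt_off_countable f g
    (fun p => if p ∈ I then fderiv ℝ f p else ((1 + U p.1) * Q (Φ p)) • ContinuousLinearMap.fst ℝ ℝ ℝ)
    (fun p => if p ∈ I then fderiv ℝ g p else 0) (-b) 0 b 1 ∅ countable_empty
    (by rw [uIcc_of_le hbb, uIcc_of_le zero_le_one]; exact hfc)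
    (by rw [uIcc_of_le hbb, uIcc_of_le zero_le_one]; exact hgc)
    (by
      intro p hp
      rw [min_eq_left hbb, max_eq_right hbb, min_eq_left zero_le_one, max_eq_right zero_le_one] at hp
      have hpI : p ∈ I := hp.1
      rw [if_pos hpI]
      exact (hder p hpI).1.hasFDerivAt)
    (by
      intro p hp
      rw [min_eq_left hbb, max_eq_right hbb, min_eq_left zero_le_one, max_eq_right zero_le_one] at hp
      have hpI : p ∈ I := hp.1
      rw [if_pos hpI]
      exact (hder p hpI).2.1.hasFDerivAt)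
    (by
      rw [uIcc_of_le hbb, uIcc_of_le zero_le_one]
      have h1 : ContinuousOn (fun p : ℝ × ℝ => (1 + U p.1) * Q (Φ p)) J :=
        (continuousOn_const.add hUf).mul hQΦ
      have h2 : IntegrableOn (fun p : ℝ × ℝ => (1 + U p.1) * Q (Φ p)) J :=
        h1.integrableOn_compact (isCompact_Icc.prod isCompact_Icc)
      refine h2.congr_fun (fun p _ => ?_) (measurableSet_Icc.prod measurableSet_Icc)
      by_cases hpI : p ∈ I
      · simp only [if_pos hpI]; exact (hder p hpI).2.2.symm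
      · simp only [if_neg hpI]; simp)
  have hval : ∀ p : ℝ × ℝ,
      (if p ∈ I then fderiv ℝ f p else ((1 + U p.1) * Q (Φ p)) • ContinuousLinearMap.fst ℝ ℝ ℝ) (1, 0) +
      (if p ∈ I then fderiv ℝ g p else 0) (0, 1) = (1 + U p.1) * Q (Φ p) := by
    intro p
    by_cases hpI : p ∈ I
    · simp only [if_pos hpI]; exact (hder p hpI).2.2
    · simp only [if_neg hpI]; simp
  simp only [hval] at key
  have hgt : ∀ x, g (x, 1) = V2 (x, U x) - U' x * V1 (x, U x) := by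
    intro x
    simp only [hg, hΦ, mul_one]
    have : -1 + (1 + U x) = U x := by ring
    rw [this]
  have hgb : ∫ x in (-b)..b, g (x, 0) = 0 := by
    rw [intervalIntegral.integral_congr (g := fun _ => (0 : ℝ))]
    · simp
    · intro x hx
      rw [uIcc_of_le hbb] at hx
      simp only [hg, hΦ, mul_zero, add_zero, zero_mul, sub_zero]
      exact hbot x hx
  have hfr : ∫ y in (0 : ℝ)..1, f (b, y) = 0 := by
    rw [intervalIntegral.integral_congr (g := fun _ => (0 : ℝ))]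
    · simp
    · intro y hy
      rw [uIcc_of_le zero_le_one] at hy
      have h1 := hΦJ (b, y) ⟨⟨hbb, le_rfl⟩, hy⟩
      simp only [hf]
      have h2 : V1 (Φ (b, y)) = 0 := hr _ h1
      rw [h2, mul_zero]
  have hfl : ∫ y in (0 : ℝ)..1, f (-b, y) = 0 := by
    rw [intervalIntegral.integral_congr (g := fun _ => (0 : ℝ))]
    · simp
    · intro y hy
      rw [uIcc_of_le zero_le_one] at hy
      have h1 := hΦJ (-b, y) ⟨⟨le_rfl, hbb⟩, hy⟩
      simp only [hf]
      have h2 : V1 (Φ (-b, y)) = 0 := hl _ h1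
      rw [h2, mul_zero]
  rw [hgb, hfr, hfl] at key
  simp only [hgt, sub_zero, add_zero] at key
  exact key

end Pool.Agent.W2helper23.Mems
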