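import Mathlib
import Pool.Agent.W2helper23.Mems.Defs

set_option autoImplicit false

open MeasureTheory Set Filter Topology

namespace Pool.Agent.W2helper23.Mems

/-- second derivative test: at a local maximum the second derivative is nonpositive -/
lemma second_deriv_nonpos {f f1 : ℝ → ℝ} {x0 f2 : ℝ} (hmax : IsLocalMax f x0)
    (h1 : ∀ᶠ x in 𝓝 x0, HasDerivAt f (f1 x) x) (h2 : HasDerivAt f1 f2 x0) : f2 ≤ 0 := by
  by_contra hcon
  push Not at hcon
  have e1 : deriv f =ᶠ[𝓝 x0] f1 := h1.mono fun x hx => hx.deriv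
  have hd0 : f1 x0 = 0 := hmax.hasDerivAt_eq_zero h1.self_of_nhds
  have e2 : deriv (deriv f) x0 = f2 := by
    rw [e1.deriv_eq]; exact h2.deriv
  have hmin : IsLocalMin f x0 := by
    apply isLocalMin_of_deriv_deriv_pos
    · rw [e2]; exact hcon
    · rw [h1.self_of_nhds.deriv]; exact hd0
    · exact h1.self_of_nhds.continuousAt
  have hconst : f =ᶠ[𝓝 x0] fun _ => f x0 := by
    filter_upwards [hmin, hmax] with x h3 h4
    exact le_antisymm h4 h3
  have e3 : deriv f =ᶠ[𝓝 x0] deriv (fun _ : ℝ => f x0) := hconst.deriv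
  have e4 : deriv (deriv f) x0 = 0 := by
    rw [e3.deriv_eq]; simp
  rw [e2] at e4
  exact absurd e4 hcon.ne'

/-- Weak maximum principle for `ε² ∂_x² + ∂_z²`. -/
lemma weak_max {ε : ℝ} (hε : 0 < ε) {K D : Set (ℝ × ℝ)} (hK : IsCompact K) (hD : IsOpen D)
    (hDK : D ⊆ K) (w wx wz : ℝ × ℝ → ℝ) (wxx wzz : ℝ × ℝ → ℝ) (hc : ContinuousOn w K)
    (hx : ∀ x z : ℝ, (x, z) ∈ D → HasDerivAt (fun y => w (y, z)) (wx (x, z)) x)
    (hz : ∀ x z : ℝ, (x, z) ∈ D → HasDerivAt (fun y => w (x, y)) (wz (x, z)) z)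
    (hxx : ∀ x z : ℝ, (x, z) ∈ D → HasDerivAt (fun y => wx (y, z)) (wxx (x, z)) x)
    (hzz : ∀ x z : ℝ, (x, z) ∈ D → HasDerivAt (fun y => wz (x, y)) (wzz (x, z)) z)
    (heq : ∀ p ∈ D, 0 ≤ ε ^ 2 * wxx p + wzz p)
    (hb : ∀ p ∈ K, p ∉ D → w p ≤ 0) : ∀ p ∈ K, w p ≤ 0 := by
  intro p0 hp0
  obtain ⟨M, hM⟩ : ∃ M : ℝ, ∀ p ∈ K, p.1 ^ 2 ≤ M := by
    have hcont : ContinuousOn (fun p : ℝ × ℝ => p.1 ^ 2) K := by fun_prop
    obtain ⟨M, hM⟩ := hK.bddAbove_image hcont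
    exact ⟨M, fun p hp => hM (mem_image_of_mem _ hp)⟩
  have key : ∀ η : ℝ, 0 < η → w p0 ≤ η * M := by
    intro η hη
    have hc2 : ContinuousOn (fun p : ℝ × ℝ => w p + η * p.1 ^ 2) K := by
      apply hc.add; fun_prop
    obtain ⟨p1, hp1, hmax⟩ := hK.exists_isMaxOn ⟨p0, hp0⟩ hc2
    have h01 : w p0 + η * p0.1 ^ 2 ≤ w p1 + η * p1.1 ^ 2 := hmax hp0
    by_cases hp1D : p1 ∈ D
    · exfalso
      obtain ⟨x1, z1⟩ := p1
      have hnh : D ∈ 𝓝 ((x1, z1) : ℝ × ℝ) := hD.mem_nhds hp1D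
      have hcx : Tendsto (fun y : ℝ => ((y, z1) : ℝ × ℝ)) (𝓝 x1) (𝓝 (x1, z1)) := by
        have : Continuous (fun y : ℝ => ((y, z1) : ℝ × ℝ)) := by fun_prop
        exact this.tendsto x1
      have hcz : Tendsto (fun y : ℝ => ((x1, y) : ℝ × ℝ)) (𝓝 z1) (𝓝 (x1, z1)) := by
        have : Continuous (fun y : ℝ => ((x1, y) : ℝ × ℝ)) := by fun_prop
        exact this.tendsto z1
      have evx : ∀ᶠ y in 𝓝 x1, ((y, z1) : ℝ × ℝ) ∈ D := hcx hnh
      have evz : ∀ᶠ y in 𝓝 z1, ((x1, y) : ℝ × ℝ) ∈ D := hcz hnh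
      have hx2 : wxx (x1, z1) + 2 * η ≤ 0 := by
        refine second_deriv_nonpos (f := fun y => w (y, z1) + η * y ^ 2)
          (f1 := fun y => wx (y, z1) + η * (2 * y)) (x0 := x1) ?_ ?_ ?_
        · filter_upwards [evx] with y hy
          exact hmax (hDK hy)
        · filter_upwards [evx] with y hy
          have h5 := (hx y z1 hy).add (((hasDerivAt_id y).pow 2).const_mul η)
          refine h5.congr_deriv ?_
          simp
        · have h5 := (hxx x1 z1 hp1D).add (((hasDerivAt_id x1).const_mul 2).const_mul η)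
          refine h5.congr_deriv ?_
          ring
      have hz2 : wzz (x1, z1) ≤ 0 := by
        refine second_deriv_nonpos (f := fun y => w (x1, y) + η * x1 ^ 2)
          (f1 := fun y => wz (x1, y)) (x0 := z1) ?_ ?_ ?_
        · filter_upwards [evz] with y hy
          exact hmax (hDK hy)
        · filter_upwards [evz] with y hy
          exact (hz x1 y hy).add_const _
        · exact hzz x1 z1 hp1D
      have h6 := heq _ hp1D
      have hε2 : 0 < ε ^ 2 := by positivity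
      nlinarith
    · have h7 := hb p1 hp1 hp1D
      have h8 := hM p1 hp1
      have h9 : 0 ≤ η * p0.1 ^ 2 := by positivity
      nlinarith
  by_contra hcon
  push Not at hcon
  have hM0 : 0 ≤ M := (sq_nonneg _).trans (hM p0 hp0)
  have h1 := key (w p0 / (2 * (M + 1))) (by positivity)
  have h2 : w p0 / (2 * (M + 1)) * M < w p0 := by
    rw [div_mul_eq_mul_div, div_lt_iff₀ (by positivity)]
    nlinarith
  linarith

/-! ### The regions -/

lemma isOpen_Omega {U : ℝ → ℝ} (hU : ContinuousOn U (Icc (-1) 1)) : IsOpen (Omega U) := by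
  have hU' : ContinuousOn U (Ioo (-1) 1) := hU.mono Ioo_subset_Icc_self
  have hfst : IsOpen {p : ℝ × ℝ | p.1 ∈ Ioo (-1 : ℝ) 1} := isOpen_Ioo.preimage continuous_fst
  have hc : ContinuousOn (fun p : ℝ × ℝ => U p.1 - p.2) {p : ℝ × ℝ | p.1 ∈ Ioo (-1 : ℝ) 1} := by
    apply ContinuousOn.sub
    · exact hU'.comp continuous_fst.continuousOn (fun p hp => hp)
    · exact continuous_snd.continuousOn
  have h1 := hc.isOpen_inter_preimage hfst (isOpen_Ioi (a := (0 : ℝ)))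
  have h2 : IsOpen {p : ℝ × ℝ | -1 < p.2} := isOpen_lt continuous_const continuous_snd
  have : Omega U = ({p : ℝ × ℝ | p.1 ∈ Ioo (-1 : ℝ) 1} ∩
      (fun p : ℝ × ℝ => U p.1 - p.2) ⁻¹' Ioi 0) ∩ {p : ℝ × ℝ | -1 < p.2} := by
    ext p
    simp only [Omega, mem_ofPred_eq, mem_inter_iff, mem_preimage, mem_Ioi, sub_pos]
    tauto
  rw [this]
  exact h1.inter h2

lemma isOpen_shift {U : ℝ → ℝ} (hU : ContinuousOn U (Icc (-1) 1)) (h : ℝ) :
    IsOpen {p : ℝ × ℝ | p.1 ∈ Ioo (-1 : ℝ) 1 ∧ -1 < p.2 ∧ p.2 + h < U p.1} := by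
  have h1 := isOpen_Omega (U := fun x => U x - h) (hU.sub continuousOn_const)
  convert h1 using 1
  ext p
  simp only [Omega, mem_ofPred_eq, lt_sub_iff_add_lt]

lemma isCompact_shift {U : ℝ → ℝ} (hU : ContinuousOn U (Icc (-1) 1)) (h : ℝ) :
    IsCompact {p : ℝ × ℝ | p.1 ∈ Icc (-1 : ℝ) 1 ∧ -1 ≤ p.2 ∧ p.2 + h ≤ U p.1} := by
  obtain ⟨M, hM⟩ := isCompact_Icc.bddAbove_image hU
  have hsub : {p : ℝ × ℝ | p.1 ∈ Icc (-1 : ℝ) 1 ∧ -1 ≤ p.2 ∧ p.2 + h ≤ U p.1} ⊆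
      Icc (-1 : ℝ) 1 ×ˢ Icc (-1 : ℝ) (M - h) := by
    rintro p ⟨h1, h2, h3⟩
    have h4 := hM (mem_image_of_mem _ h1)
    exact ⟨h1, h2, by linarith⟩
  have hcomp : IsCompact (Icc (-1 : ℝ) 1 ×ˢ Icc (-1 : ℝ) (M - h)) := isCompact_Icc.prod isCompact_Icc
  refine hcomp.of_isClosed_subset ?_ hsub
  have hc : ContinuousOn (fun p : ℝ × ℝ => U p.1 - p.2) {p : ℝ × ℝ | p.1 ∈ Icc (-1 : ℝ) 1} := by
    apply ContinuousOn.sub
    · exact hU.comp continuous_fst.continuousOn (fun p hp => hp)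
    · exact continuous_snd.continuousOn
  have hcl : IsClosed {p : ℝ × ℝ | p.1 ∈ Icc (-1 : ℝ) 1} := isClosed_Icc.preimage continuous_fst
  have h1 := hc.preimage_isClosed_of_isClosed hcl (isClosed_Ici (a := h))
  have h2 : IsClosed {p : ℝ × ℝ | -1 ≤ p.2} := isClosed_le continuous_const continuous_snd
  have : {p : ℝ × ℝ | p.1 ∈ Icc (-1 : ℝ) 1 ∧ -1 ≤ p.2 ∧ p.2 + h ≤ U p.1} =
      ({p : ℝ × ℝ | p.1 ∈ Icc (-1 : ℝ) 1} ∩ (fun p : ℝ × ℝ => U p.1 - p.2) ⁻¹' Ici h) ∩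
        {p : ℝ × ℝ | -1 ≤ p.2} := by
    ext p
    simp only [mem_ofPred_eq, mem_inter_iff, mem_preimage, mem_Ici]
    constructor
    · rintro ⟨a, b, c⟩; exact ⟨⟨a, by linarith⟩, b⟩
    · rintro ⟨⟨a, c⟩, b⟩; exact ⟨a, b, by linarith⟩
  rw [this]
  exact h1.inter h2

lemma isCompact_ClosedOmega {U : ℝ → ℝ} (hU : ContinuousOn U (Icc (-1) 1)) :
    IsCompact (ClosedOmega U) := by
  have := isCompact_shift hU 0
  simpa [ClosedOmega] using this

/-! ### Bounds and monotonicity of the potential -/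

section pot

variable {ε : ℝ} {U : ℝ → ℝ} {Ψ Ψx Ψz : ℝ × ℝ → ℝ}

lemma IsPotential.hasDerivAt_x (h : IsPotential ε U Ψ Ψx Ψz) (hU : ContinuousOn U (Icc (-1) 1))
    {x z : ℝ} (hp : (x, z) ∈ Omega U) : HasDerivAt (fun y => Ψ (y, z)) (Ψx (x, z)) x := by
  rw [h.deriv_x x z hp]
  have h1 : DifferentiableAt ℝ Ψ (x, z) :=
    (h.contDiffOn.differentiableOn (by norm_num)).differentiableAt ((isOpen_Omega hU).mem_nhds hp)
  have h2 : DifferentiableAt ℝ (fun y => Ψ (y, z)) x :=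
    DifferentiableAt.comp (𝕜 := ℝ) (g := Ψ) (f := fun y : ℝ => ((y, z) : ℝ × ℝ)) x h1 (by fun_prop)
  exact h2.hasDerivAt

lemma IsPotential.hasDerivAt_z (h : IsPotential ε U Ψ Ψx Ψz) (hU : ContinuousOn U (Icc (-1) 1))
    {x z : ℝ} (hp : (x, z) ∈ Omega U) : HasDerivAt (fun y => Ψ (x, y)) (Ψz (x, z)) z := by
  rw [h.deriv_z x z hp]
  have h1 : DifferentiableAt ℝ Ψ (x, z) :=
    (h.contDiffOn.differentiableOn (by norm_num)).differentiableAt ((isOpen_Omega hU).mem_nhds hp)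
  have h2 : DifferentiableAt ℝ (fun y => Ψ (x, y)) z :=
    DifferentiableAt.comp (𝕜 := ℝ) (g := Ψ) (f := fun y : ℝ => ((x, y) : ℝ × ℝ)) z h1 (by fun_prop)
  exact h2.hasDerivAt

lemma IsPotential.fderiv_eq (h : IsPotential ε U Ψ Ψx Ψz) (hU : ContinuousOn U (Icc (-1) 1))
    {p : ℝ × ℝ} (hp : p ∈ Omega U) (v : ℝ × ℝ) : fderiv ℝ Ψ p v = v.1 * Ψx p + v.2 * Ψz p := by
  obtain ⟨x, z⟩ := p
  have h1 : DifferentiableAt ℝ Ψ (x, z) :=
    (h.contDiffOn.differentiableOn (by norm_num)).differentiableAt ((isOpen_Omega hU).mem_nhds hp)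
  have hx : fderiv ℝ Ψ (x, z) (1, 0) = Ψx (x, z) := by
    have h2 : HasDerivAt (fun y : ℝ => ((y, z) : ℝ × ℝ)) (1, 0) x :=
      (hasDerivAt_id x).prodMk (hasDerivAt_const x z)
    have h3 := h1.hasFDerivAt.comp_hasDerivAt x h2
    exact h3.unique (h.hasDerivAt_x hU hp)
  have hz : fderiv ℝ Ψ (x, z) (0, 1) = Ψz (x, z) := by
    have h2 : HasDerivAt (fun y : ℝ => ((x, y) : ℝ × ℝ)) (0, 1) z :=
      (hasDerivAt_const z x).prodMk (hasDerivAt_id z)
    have h3 := h1.hasFDerivAt.comp_hasDerivAt z h2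
    exact h3.unique (h.hasDerivAt_z hU hp)
  have hv : v = v.1 • ((1, 0) : ℝ × ℝ) + v.2 • ((0, 1) : ℝ × ℝ) := by
    ext <;> simp
  conv_lhs => rw [hv]
  rw [map_add, map_smul, map_smul, hx, hz, smul_eq_mul, smul_eq_mul]

/-- the partial derivatives are of class `C¹` in `Ω(U)` -/
lemma IsPotential.contDiffOn_x (h : IsPotential ε U Ψ Ψx Ψz) (hU : ContinuousOn U (Icc (-1) 1)) :
    ContDiffOn ℝ 1 Ψx (Omega U) := by
  have h1 : ContDiffOn ℝ 1 (fun p => fderiv ℝ Ψ p) (Omega U) :=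
    h.contDiffOn.fderiv_of_isOpen (isOpen_Omega hU) (by norm_num)
  have h2 : ContDiffOn ℝ 1 (fun p => fderiv ℝ Ψ p (1, 0)) (Omega U) :=
    h1.clm_apply contDiffOn_const
  refine h2.congr fun p hp => ?_
  rw [h.fderiv_eq hU hp]; simp

lemma IsPotential.contDiffOn_z (h : IsPotential ε U Ψ Ψx Ψz) (hU : ContinuousOn U (Icc (-1) 1)) :
    ContDiffOn ℝ 1 Ψz (Omega U) := by
  have h1 : ContDiffOn ℝ 1 (fun p => fderiv ℝ Ψ p) (Omega U) :=
    h.contDiffOn.fderiv_of_isOpen (isOpen_Omega hU) (by norm_num)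
  have h2 : ContDiffOn ℝ 1 (fun p => fderiv ℝ Ψ p (0, 1)) (Omega U) :=
    h1.clm_apply contDiffOn_const
  refine h2.congr fun p hp => ?_
  rw [h.fderiv_eq hU hp]; simp

lemma IsPotential.diff_x (h : IsPotential ε U Ψ Ψx Ψz) (hU : ContinuousOn U (Icc (-1) 1))
    {p : ℝ × ℝ} (hp : p ∈ Omega U) : DifferentiableAt ℝ Ψx p :=
  ((h.contDiffOn_x hU).differentiableOn (by norm_num)).differentiableAt
    ((isOpen_Omega hU).mem_nhds hp)

lemma IsPotential.diff_z (h : IsPotential ε U Ψ Ψx Ψz) (hU : ContinuousOn U (Icc (-1) 1))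
    {p : ℝ × ℝ} (hp : p ∈ Omega U) : DifferentiableAt ℝ Ψz p :=
  ((h.contDiffOn_z hU).differentiableOn (by norm_num)).differentiableAt
    ((isOpen_Omega hU).mem_nhds hp)

lemma slice_x {F : ℝ × ℝ → ℝ} {x z : ℝ} (h : DifferentiableAt ℝ F (x, z)) :
    HasDerivAt (fun y => F (y, z)) (fderiv ℝ F (x, z) (1, 0)) x := by
  have h2 : HasDerivAt (fun y : ℝ => ((y, z) : ℝ × ℝ)) (1, 0) x :=
    (hasDerivAt_id x).prodMk (hasDerivAt_const x z)
  exact h.hasFDerivAt.comp_hasDerivAt x h2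

lemma slice_z {F : ℝ × ℝ → ℝ} {x z : ℝ} (h : DifferentiableAt ℝ F (x, z)) :
    HasDerivAt (fun y => F (x, y)) (fderiv ℝ F (x, z) (0, 1)) z := by
  have h2 : HasDerivAt (fun y : ℝ => ((x, y) : ℝ × ℝ)) (0, 1) z :=
    (hasDerivAt_const z x).prodMk (hasDerivAt_id z)
  exact h.hasFDerivAt.comp_hasDerivAt z h2

/-- the Laplace equation in terms of the Fréchet derivatives -/
lemma IsPotential.laplace (h : IsPotential ε U Ψ Ψx Ψz) (hU : ContinuousOn U (Icc (-1) 1))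
    {p : ℝ × ℝ} (hp : p ∈ Omega U) :
    ε ^ 2 * fderiv ℝ Ψx p (1, 0) + fderiv ℝ Ψz p (0, 1) = 0 := by
  obtain ⟨x, z⟩ := p
  have h1 := h.equation x z hp
  rw [(slice_x (h.diff_x hU hp)).deriv, (slice_z (h.diff_z hU hp)).deriv] at h1
  exact h1

/-- symmetry of the second derivatives -/
lemma IsPotential.symm (h : IsPotential ε U Ψ Ψx Ψz) (hU : ContinuousOn U (Icc (-1) 1))
    {p : ℝ × ℝ} (hp : p ∈ Omega U) :
    fderiv ℝ Ψx p (0, 1) = fderiv ℝ Ψz p (1, 0) := by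
  have hO := (isOpen_Omega hU).mem_nhds hp
  have hC : ContDiffAt ℝ 2 Ψ p := h.contDiffOn.contDiffAt hO
  have hsym : IsSymmSndFDerivAt ℝ Ψ p := hC.isSymmSndFDerivAt (by simp)
  have hdd : DifferentiableAt ℝ (fderiv ℝ Ψ) p :=
    (hC.fderiv_right (m := 1) (by norm_num)).differentiableAt (by norm_num)
  have e1 : Ψx =ᶠ[𝓝 p] fun q => fderiv ℝ Ψ q (1, 0) := by
    filter_upwards [hO] with q hq
    rw [h.fderiv_eq hU hq]; simp
  have e2 : Ψz =ᶠ[𝓝 p] fun q => fderiv ℝ Ψ q (0, 1) := by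
    filter_upwards [hO] with q hq
    rw [h.fderiv_eq hU hq]; simp
  have d1 : HasFDerivAt (fun q => fderiv ℝ Ψ q (1, 0)) ((fderiv ℝ (fderiv ℝ Ψ) p).flip (1, 0)) p := by
    have := hdd.hasFDerivAt.clm_apply (hasFDerivAt_const ((1, 0) : ℝ × ℝ) p)
    refine this.congr_fderiv ?_
    ext <;> simp
  have d2 : HasFDerivAt (fun q => fderiv ℝ Ψ q (0, 1)) ((fderiv ℝ (fderiv ℝ Ψ) p).flip (0, 1)) p := by
    have := hdd.hasFDerivAt.clm_apply (hasFDerivAt_const ((0, 1) : ℝ × ℝ) p)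
    refine this.congr_fderiv ?_
    ext <;> simp
  rw [e1.fderiv_eq, e2.fderiv_eq, d1.fderiv, d2.fderiv]
  simp only [ContinuousLinearMap.flip_apply]
  exact hsym.eq (0, 1) (1, 0)

lemma Omega_sub (U : ℝ → ℝ) : Omega U ⊆ ClosedOmega U := by
  rintro p ⟨h1, h2, h3⟩
  exact ⟨Ioo_subset_Icc_self h1, h2.le, h3.le⟩

/-- values on the boundary -/
lemma IsPotential.bdry_cases (hm : U (-1) = 0) (hp1 : U 1 = 0)
    {x z : ℝ} (hc : (x, z) ∈ ClosedOmega U) (hn : (x, z) ∉ Omega U) :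
    ((x = -1 ∨ x = 1) ∧ U x = 0) ∨ z = -1 ∨ z = U x := by
  obtain ⟨⟨h1, h1'⟩, h2, h3⟩ := hc
  simp only at h1 h1' h2 h3
  by_contra hcon
  push Not at hcon
  obtain ⟨c1, c2, c3⟩ := hcon
  apply hn
  have hx1 : x ≠ -1 := by rintro rfl; exact c1 (Or.inl rfl) hm
  have hx2 : x ≠ 1 := by rintro rfl; exact c1 (Or.inr rfl) hp1
  exact ⟨⟨lt_of_le_of_ne h1 (Ne.symm hx1), lt_of_le_of_ne h1' hx2⟩, lt_of_le_of_ne h2 (Ne.symm c2),
    lt_of_le_of_ne h3 c3⟩

lemma IsPotential.boundary_value (h : IsPotential ε U Ψ Ψx Ψz)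
    (hm : U (-1) = 0) (hp1 : U 1 = 0) (hpos : ∀ x ∈ Icc (-1 : ℝ) 1, -1 < U x)
    {x z : ℝ} (hc : (x, z) ∈ ClosedOmega U) (hn : (x, z) ∉ Omega U) :
    0 ≤ Ψ (x, z) ∧ Ψ (x, z) ≤ 1 := by
  rw [h.boundary x z hc hn]
  have h1 := hpos x hc.1
  have h2 := hc.2.1
  have h3 := hc.2.2
  simp only at h1 h2 h3
  constructor
  · apply div_nonneg <;> linarith
  · rw [div_le_one (by linarith)]; linarith

lemma IsPotential.bounds (h : IsPotential ε U Ψ Ψx Ψz) (hε : 0 < ε)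
    (hU : ContinuousOn U (Icc (-1) 1))
    (hm : U (-1) = 0) (hp1 : U 1 = 0) (hpos : ∀ x ∈ Icc (-1 : ℝ) 1, -1 < U x)
    {p : ℝ × ℝ} (hp : p ∈ ClosedOmega U) : 0 ≤ Ψ p ∧ Ψ p ≤ 1 := by
  have hK := isCompact_ClosedOmega hU
  have hD := isOpen_Omega hU
  constructor
  · have := weak_max hε hK hD (Omega_sub U) (fun p => -Ψ p) (fun p => -Ψx p) (fun p => -Ψz p)
      (fun p => -fderiv ℝ Ψx p (1, 0)) (fun p => -fderiv ℝ Ψz p (0, 1)) h.continuousOn.neg
      (fun x z hq => (h.hasDerivAt_x hU hq).neg) (fun x z hq => (h.hasDerivAt_z hU hq).neg)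
      (fun x z hq => (slice_x (h.diff_x hU hq)).neg) (fun x z hq => (slice_z (h.diff_z hU hq)).neg)
      (fun q hq => by have := h.laplace hU hq; linarith)
      (fun q hq hn => by
        have := (h.boundary_value hm hp1 hpos (x := q.1) (z := q.2) hq hn).1
        linarith) p hp
    linarith
  · have := weak_max hε hK hD (Omega_sub U) (fun p => Ψ p - 1) Ψx Ψz
      (fun p => fderiv ℝ Ψx p (1, 0)) (fun p => fderiv ℝ Ψz p (0, 1))
      (h.continuousOn.sub continuousOn_const)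
      (fun x z hq => (h.hasDerivAt_x hU hq).sub_const 1)
      (fun x z hq => (h.hasDerivAt_z hU hq).sub_const 1)
      (fun x z hq => (slice_x (h.diff_x hU hq))) (fun x z hq => (slice_z (h.diff_z hU hq)))
      (fun q hq => by have := h.laplace hU hq; linarith)
      (fun q hq hn => by
        have := (h.boundary_value hm hp1 hpos (x := q.1) (z := q.2) hq hn).2
        linarith) p hp
    linarith

/-- the potential increases with `z` -/
lemma IsPotential.mono (h : IsPotential ε U Ψ Ψx Ψz) (hε : 0 < ε)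
    (hU : ContinuousOn U (Icc (-1) 1))
    (hm : U (-1) = 0) (hp1 : U 1 = 0) (hpos : ∀ x ∈ Icc (-1 : ℝ) 1, -1 < U x)
    {x z s : ℝ} (hs : 0 ≤ s) (hp : (x, z) ∈ ClosedOmega U) (hp' : (x, z + s) ∈ ClosedOmega U) :
    Ψ (x, z) ≤ Ψ (x, z + s) := by
  rcases hs.eq_or_lt with rfl | hs
  · simp
  set K := {p : ℝ × ℝ | p.1 ∈ Icc (-1 : ℝ) 1 ∧ -1 ≤ p.2 ∧ p.2 + s ≤ U p.1} with hKdef
  set D := {p : ℝ × ℝ | p.1 ∈ Ioo (-1 : ℝ) 1 ∧ -1 < p.2 ∧ p.2 + s < U p.1} with hDdef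
  have hK : IsCompact K := isCompact_shift hU s
  have hD : IsOpen D := isOpen_shift hU s
  have hDK : D ⊆ K := by
    rintro p ⟨h1, h2, h3⟩
    exact ⟨Ioo_subset_Icc_self h1, h2.le, h3.le⟩
  have hK1 : ∀ p ∈ K, p ∈ ClosedOmega U := by
    rintro p ⟨h1, h2, h3⟩; exact ⟨h1, h2, by linarith⟩
  have hK2 : ∀ p ∈ K, (p.1, p.2 + s) ∈ ClosedOmega U := by
    rintro p ⟨h1, h2, h3⟩; exact ⟨h1, by simp only; linarith, h3⟩
  have hD1 : ∀ x z : ℝ, (x, z) ∈ D → (x, z) ∈ Omega U := by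
    rintro x z ⟨h1, h2, h3⟩; exact ⟨h1, h2, by simp only at *; linarith⟩
  have hD2 : ∀ x z : ℝ, (x, z) ∈ D → (x, z + s) ∈ Omega U := by
    rintro x z ⟨h1, h2, h3⟩; exact ⟨h1, by simp only at *; linarith, h3⟩
  have hshift : ContinuousOn (fun p : ℝ × ℝ => Ψ (p.1, p.2 + s)) K :=
    h.continuousOn.comp (by fun_prop) (fun p hp => hK2 p hp)
  have hsh : ∀ z : ℝ, HasDerivAt (fun y : ℝ => y + s) 1 z := fun z => (hasDerivAt_id z).add_const s
  have := weak_max hε hK hD hDK (fun p => Ψ p - Ψ (p.1, p.2 + s))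
    (fun p => Ψx p - Ψx (p.1, p.2 + s)) (fun p => Ψz p - Ψz (p.1, p.2 + s))
    (fun p => fderiv ℝ Ψx p (1, 0) - fderiv ℝ Ψx (p.1, p.2 + s) (1, 0))
    (fun p => fderiv ℝ Ψz p (0, 1) - fderiv ℝ Ψz (p.1, p.2 + s) (0, 1))
    ((h.continuousOn.mono hK1).sub hshift)
    (fun x z hq => (h.hasDerivAt_x hU (hD1 x z hq)).sub (h.hasDerivAt_x hU (hD2 x z hq)))
    (fun x z hq => by
      refine (h.hasDerivAt_z hU (hD1 x z hq)).sub ?_
      have h5 := (h.hasDerivAt_z hU (hD2 x z hq)).comp z (hsh z)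
      rw [mul_one] at h5
      exact h5)
    (fun x z hq => (slice_x (h.diff_x hU (hD1 x z hq))).sub (slice_x (h.diff_x hU (hD2 x z hq))))
    (fun x z hq => by
      refine (slice_z (h.diff_z hU (hD1 x z hq))).sub ?_
      have h5 := (slice_z (h.diff_z hU (hD2 x z hq))).comp z (hsh z)
      rw [mul_one] at h5
      exact h5)
    (fun q hq => by
      have e1 := h.laplace hU (hD1 q.1 q.2 hq)
      have e2 := h.laplace hU (hD2 q.1 q.2 hq)
      have e3 : (q.1, q.2) = q := rfl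
      rw [e3] at e1
      linarith)
    (fun q hq hn => by
      obtain ⟨x, z⟩ := q
      simp only
      obtain ⟨hq1, hq2, hq3⟩ := hq
      simp only at hq1 hq2 hq3
      have b1 := h.bounds hε hU hm hp1 hpos (hK1 (x, z) ⟨hq1, hq2, hq3⟩)
      have b2 := h.bounds hε hU hm hp1 hpos (hK2 (x, z) ⟨hq1, hq2, hq3⟩)
      simp only at b2
      by_cases hx : x = -1 ∨ x = 1
      · have hUx : U x = 0 := by rcases hx with rfl | rfl; exacts [hm, hp1]
        have hnO : ∀ z', (x, z') ∉ Omega U := by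
          rintro z' ⟨⟨a, b⟩, -⟩
          simp only at a b
          rcases hx with rfl | rfl
          · exact lt_irrefl _ a
          · exact lt_irrefl _ b
        rw [h.boundary x z (hK1 (x, z) ⟨hq1, hq2, hq3⟩) (hnO z),
          h.boundary x (z + s) (hK2 (x, z) ⟨hq1, hq2, hq3⟩) (hnO _), hUx]
        simp only [add_zero, div_one]
        linarith
      · push Not at hx
        have hx' : x ∈ Ioo (-1 : ℝ) 1 := ⟨lt_of_le_of_ne hq1.1 (Ne.symm hx.1), lt_of_le_of_ne hq1.2 hx.2⟩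
        by_cases hz : z = -1
        · subst hz
          have : Ψ (x, -1) = 0 := by
            rw [h.boundary x (-1) (hK1 (x, -1) ⟨hq1, hq2, hq3⟩) (fun hh => lt_irrefl _ hh.2.1)]
            simp
          linarith [b2.1]
        · have hz' : -1 < z := lt_of_le_of_ne hq2 (Ne.symm hz)
          have hzz : z + s = U x := by
            by_contra hne
            exact hn ⟨hx', hz', lt_of_le_of_ne hq3 hne⟩
          have : Ψ (x, z + s) = 1 := by
            rw [h.boundary x (z + s) (hK2 (x, z) ⟨hq1, hq2, hq3⟩)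
              (fun hh => by have := hh.2.2; simp only at this; linarith), hzz]
            have := hpos x hq1
            field_simp
            rw [div_self]; linarith
          linarith [b1.2]) (x, z) ⟨hp.1, hp.2.1, hp'.2.2⟩
  simp only at this
  linarith

lemma IsPotential.pz_nonneg (h : IsPotential ε U Ψ Ψx Ψz) (hε : 0 < ε)
    (hU : ContinuousOn U (Icc (-1) 1))
    (hm : U (-1) = 0) (hp1 : U 1 = 0) (hpos : ∀ x ∈ Icc (-1 : ℝ) 1, -1 < U x)
    {p : ℝ × ℝ} (hp : p ∈ Omega U) : 0 ≤ Ψz p := by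
  obtain ⟨x, z⟩ := p
  have h1 := h.hasDerivAt_z hU hp
  by_contra hcon
  push Not at hcon
  have h2 : ∀ᶠ y in 𝓝[>] z, slope (fun y => Ψ (x, y)) z y < 0 :=
    ((hasDerivAt_iff_tendsto_slope.1 h1).mono_left
      (nhdsWithin_mono _ (fun y hy => ne_of_gt hy))).eventually (gt_mem_nhds hcon)
  have h3 : ∀ᶠ y in 𝓝[>] z, y < U x :=
    Filter.Eventually.filter_mono nhdsWithin_le_nhds (eventually_lt_nhds hp.2.2)
  obtain ⟨y, hy1, hy2, hy3⟩ := (h2.and (h3.and self_mem_nhdsWithin)).exists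
  have hy3' : z < y := hy3
  have h4 := h.mono hε hU hm hp1 hpos (x := x) (z := z) (s := y - z) (by linarith)
    (Omega_sub U hp) ⟨Ioo_subset_Icc_self hp.1, by
      have := hp.2.1; simp only at *; linarith, by simp only; linarith⟩
  rw [add_sub_cancel] at h4
  rw [slope_def_field] at hy1
  have : 0 ≤ (Ψ (x, y) - Ψ (x, z)) / (y - z) := div_nonneg (by linarith) (by linarith)
  linarith

end pot

end Pool.Agent.W2helper23.Mems
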