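import Mathlib
import Pool.Agent.W2helper23.Mems.MaxP
import Pool.Agent.W2helper23.Mems.Div

set_option autoImplicit false

open MeasureTheory Set Filter Topology

namespace Pool.Agent.W2helper23.Mems

/-! ### Functions of one variable -/

/-- `(e - 1)^+` -/
noncomputable def pp (e : ℝ) : ℝ := max (e - 1) 0

lemma pp_nonneg (e : ℝ) : 0 ≤ pp e := le_max_right _ _

lemma pp_of_le {e : ℝ} (h : e ≤ 1) : pp e = 0 := max_eq_right (by linarith)

lemma pp_of_ge {e : ℝ} (h : 1 ≤ e) : pp e = e - 1 := max_eq_left (by linarith)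

lemma pp_continuous : Continuous pp := by unfold pp; fun_prop

lemma hasDerivAt_pp_sq (e : ℝ) : HasDerivAt (fun e => pp e ^ 2) (2 * pp e) e := by
  rcases lt_trichotomy e 1 with h | h | h
  · have h1 : (fun e => pp e ^ 2) =ᶠ[𝓝 e] fun _ => (0 : ℝ) := by
      filter_upwards [eventually_lt_nhds h] with y hy
      rw [pp_of_le hy.le]; norm_num
    rw [pp_of_le h.le, mul_zero]
    exact (hasDerivAt_const e (0 : ℝ)).congr_of_eventuallyEq h1
  · subst h
    rw [pp_of_le le_rfl, mul_zero, hasDerivAt_iff_isLittleO]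
    simp only [pp_of_le le_rfl]
    have h1 : (fun x' : ℝ => pp x' ^ 2 - 0 ^ 2 - (x' - 1) • (0 : ℝ)) =O[𝓝 1]
        fun x' => (x' - 1) ^ 2 := by
      apply Asymptotics.IsBigO.of_bound 1
      refine Filter.Eventually.of_forall fun y => ?_
      simp only [smul_zero, sub_zero, one_mul]
      rw [Real.norm_eq_abs, Real.norm_eq_abs]
      norm_num
      rcases le_total y 1 with hy | hy
      · rw [pp_of_le hy]; simp; positivity
      · rw [pp_of_ge hy]
    refine h1.trans_isLittleO ?_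
    have h2 : (fun x' : ℝ => (x' - 1) ^ 2) = fun x' => (x' - 1) * (x' - 1) := by
      funext x; ring
    rw [h2]
    have h3 : Tendsto (fun x' : ℝ => x' - 1) (𝓝 1) (𝓝 0) := by
      have : Continuous (fun x' : ℝ => x' - 1) := by fun_prop
      have h4 := this.tendsto 1
      simpa using h4
    have h5 : (fun x' : ℝ => x' - 1) =o[𝓝 1] (fun _ : ℝ => (1 : ℝ)) :=
      (Asymptotics.isLittleO_one_iff ℝ).2 h3
    simpa using h5.mul_isBigO (Asymptotics.isBigO_refl (fun x' : ℝ => x' - 1) (𝓝 1))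
  · have h1 : (fun e => pp e ^ 2) =ᶠ[𝓝 e] fun e => (e - 1) ^ 2 := by
      filter_upwards [eventually_gt_nhds h] with y hy
      rw [pp_of_ge (le_of_lt hy)]
    rw [pp_of_ge h.le]
    have h2 : HasDerivAt (fun e : ℝ => (e - 1) ^ 2) (2 * (e - 1)) e := by
      have := ((hasDerivAt_id e).sub_const 1).pow 2
      refine this.congr_deriv ?_
      simp
    exact h2.congr_of_eventuallyEq h1

/-- The multiplier. -/
noncomputable def GG (n e : ℝ) : ℝ := pp e ^ 2 * (3 * e ^ 2 + 2 * e + 1) / (12 * n)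

noncomputable def ZZ (e : ℝ) : ℝ := pp e ^ 2 * (4 * e - 1) / 6

noncomputable def NN (e : ℝ) : ℝ := pp e ^ 2 / 2

lemma pp_mul (e : ℝ) : pp e * pp e = pp e * (e - 1) := by
  rcases le_total e 1 with h | h
  · rw [pp_of_le h]; ring
  · rw [pp_of_ge h]

lemma hasDerivAt_GG {n : ℝ} (hn : n ≠ 0) (e : ℝ) : HasDerivAt (GG n) (e ^ 2 * pp e / n) e := by
  have h1 : HasDerivAt (fun e : ℝ => 3 * e ^ 2 + 2 * e + 1) (6 * e + 2) e := by
    have := ((((hasDerivAt_id e).pow 2).const_mul 3).add ((hasDerivAt_id e).const_mul 2)).add_const 1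
    refine this.congr_deriv ?_
    simp; ring
  have h2 := ((hasDerivAt_pp_sq e).mul h1).div_const (12 * n)
  refine h2.congr_deriv ?_
  have h3 := pp_mul e
  field_simp
  linear_combination (6 * e + 2) * h3

lemma hasDerivAt_ZZ (e : ℝ) : HasDerivAt ZZ (pp e * (2 * e - 1)) e := by
  have h1 : HasDerivAt (fun e : ℝ => 4 * e - 1) 4 e := by
    have := ((hasDerivAt_id e).const_mul 4).sub_const 1
    refine this.congr_deriv ?_
    simp
  have h2 := ((hasDerivAt_pp_sq e).mul h1).div_const 6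
  refine h2.congr_deriv ?_
  have : pp e ^ 2 = pp e * (e - 1) := by rw [sq, pp_mul]
  rw [this]; ring

lemma hasDerivAt_NN (e : ℝ) : HasDerivAt NN (pp e) e := by
  have h2 := (hasDerivAt_pp_sq e).div_const 2
  refine h2.congr_deriv ?_
  ring

lemma GG_continuous (n : ℝ) : Continuous (GG n) := by
  have := pp_continuous
  unfold GG; fun_prop

lemma ZZ_continuous : Continuous ZZ := by
  have := pp_continuous
  unfold ZZ; fun_prop

lemma NN_continuous : Continuous NN := by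
  have := pp_continuous
  unfold NN; fun_prop

lemma GG_zero {n e : ℝ} (h : e ≤ 1) : GG n e = 0 := by simp [GG, pp_of_le h]
lemma ZZ_zero {e : ℝ} (h : e ≤ 1) : ZZ e = 0 := by simp [ZZ, pp_of_le h]
lemma NN_zero {e : ℝ} (h : e ≤ 1) : NN e = 0 := by simp [NN, pp_of_le h]

/-! ### Explicit functions of two variables -/

/-- `κ = cos (2 x) exp (- n (1 + z))` -/
noncomputable def kap (n : ℝ) (p : ℝ × ℝ) : ℝ := Real.cos (2 * p.1) * Real.exp (-(n * (1 + p.2)))

/-- `∂_x κ` -/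
noncomputable def kapx (n : ℝ) (p : ℝ × ℝ) : ℝ :=
  -(2 * Real.sin (2 * p.1)) * Real.exp (-(n * (1 + p.2)))

/-- `n² exp (- 2 n (1 + z))` -/
noncomputable def cc (n : ℝ) (p : ℝ × ℝ) : ℝ := n ^ 2 * Real.exp (-(n * (1 + p.2))) ^ 2

lemma cos2_deriv (x : ℝ) : HasDerivAt (fun y : ℝ => Real.cos (2 * y)) (-(2 * Real.sin (2 * x))) x := by
  have h1 : HasDerivAt (fun y : ℝ => 2 * y) 2 x := by
    simpa using (hasDerivAt_id x).const_mul 2
  have := h1.cos
  refine this.congr_deriv ?_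
  ring

lemma sin2_deriv (x : ℝ) : HasDerivAt (fun y : ℝ => Real.sin (2 * y)) (2 * Real.cos (2 * x)) x := by
  have h1 : HasDerivAt (fun y : ℝ => 2 * y) 2 x := by
    simpa using (hasDerivAt_id x).const_mul 2
  have := h1.sin
  refine this.congr_deriv ?_
  ring

lemma exp_deriv (n z : ℝ) : HasDerivAt (fun y : ℝ => Real.exp (-(n * (1 + y))))
    (-n * Real.exp (-(n * (1 + z)))) z := by
  have h1 : HasDerivAt (fun y : ℝ => -(n * (1 + y))) (-n) z := by
    have := (((hasDerivAt_id z).const_add 1).const_mul n).neg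
    rw [mul_one] at this
    exact this
  refine h1.exp.congr_deriv ?_
  ring

lemma kap_x (n x z : ℝ) : HasDerivAt (fun y => kap n (y, z)) (kapx n (x, z)) x := by
  exact (cos2_deriv x).mul_const (Real.exp (-(n * (1 + z))))

lemma kap_z (n x z : ℝ) : HasDerivAt (fun y => kap n (x, y)) (-n * kap n (x, z)) z := by
  refine HasDerivAt.congr_deriv (f' := Real.cos (2 * x) * (-n * Real.exp (-(n * (1 + z)))))
    ((exp_deriv n z).const_mul (Real.cos (2 * x))) ?_
  simp only [kap]; ring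

lemma kapx_x (n x z : ℝ) : HasDerivAt (fun y => kapx n (y, z)) (-4 * kap n (x, z)) x := by
  refine HasDerivAt.congr_deriv
    (f' := -(2 * (2 * Real.cos (2 * x))) * Real.exp (-(n * (1 + z))))
    ((((sin2_deriv x).const_mul 2).neg).mul_const (Real.exp (-(n * (1 + z))))) ?_
  simp only [kap]; ring

lemma cc_z (n x z : ℝ) : HasDerivAt (fun y => cc n (x, y)) (-2 * n * cc n (x, z)) z := by
  refine HasDerivAt.congr_deriv (((exp_deriv n z).pow 2).const_mul (n ^ 2)) ?_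
  simp only [cc]; push_cast; ring

lemma cc_eq (n : ℝ) (p : ℝ × ℝ) : cc n p = (n / 2) ^ 2 * kapx n p ^ 2 + (n * kap n p) ^ 2 := by
  unfold cc kap kapx
  have := Real.sin_sq_add_cos_sq (2 * p.1)
  have h2 : Real.cos (2 * p.1) ^ 2 = 1 - Real.sin (2 * p.1) ^ 2 := by linarith
  simp only [mul_pow]
  rw [h2]; ring

lemma kap_differentiable (n : ℝ) : Differentiable ℝ (kap n) := by
  unfold kap; fun_prop

lemma kapx_differentiable (n : ℝ) : Differentiable ℝ (kapx n) := by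
  unfold kapx; fun_prop

lemma cc_differentiable (n : ℝ) : Differentiable ℝ (cc n) := by
  unfold cc; fun_prop

lemma kap_continuous (n : ℝ) : Continuous (kap n) := (kap_differentiable n).continuous
lemma kapx_continuous (n : ℝ) : Continuous (kapx n) := (kapx_differentiable n).continuous
lemma cc_continuous (n : ℝ) : Continuous (cc n) := (cc_differentiable n).continuous

/-! ### The vector field -/

section field

variable (ε δ : ℝ) (Ψ Ψx Ψz : ℝ × ℝ → ℝ)

/-- `ρ = 1 + δ - Ψ` -/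
noncomputable def rho (p : ℝ × ℝ) : ℝ := 1 + δ - Ψ p

/-- `E = κ / ρ` -/
noncomputable def EE (p : ℝ × ℝ) : ℝ := kap (2 * ε) p / rho δ Ψ p

noncomputable def V1 (p : ℝ × ℝ) : ℝ :=
  ε ^ 2 * (Ψx p * Ψz p) * GG (2 * ε) (EE ε δ Ψ p) +
    ε ^ 2 * (rho δ Ψ p * ZZ (EE ε δ Ψ p) * kapx (2 * ε) p)

noncomputable def V2 (p : ℝ × ℝ) : ℝ :=
  (Ψz p ^ 2 - ε ^ 2 * Ψx p ^ 2) / 2 * GG (2 * ε) (EE ε δ Ψ p) +
    rho δ Ψ p * ZZ (EE ε δ Ψ p) * (-(2 * ε) * kap (2 * ε) p) +
    cc (2 * ε) p / (4 * ε) * NN (EE ε δ Ψ p)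

noncomputable def QQ (p : ℝ × ℝ) : ℝ :=
  EE ε δ Ψ p * pp (EE ε δ Ψ p) * Ψz p / (4 * ε * rho δ Ψ p) *
      (ε ^ 2 * (EE ε δ Ψ p * Ψx p + kapx (2 * ε) p) ^ 2 +
        (EE ε δ Ψ p * Ψz p - 2 * ε * kap (2 * ε) p) ^ 2) +
    pp (EE ε δ Ψ p) / 2 *
      (EE ε δ Ψ p ^ 3 * (ε ^ 2 * Ψx p ^ 2 + Ψz p ^ 2) +
        (8 * EE ε δ Ψ p ^ 2 - EE ε δ Ψ p - 1) / 3 *
          (ε ^ 2 * (Ψx p * kapx (2 * ε) p) - 2 * ε * (Ψz p * kap (2 * ε) p)) +
        (2 * EE ε δ Ψ p - 1) * cc (2 * ε) p)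

end field

/-- the algebraic identity behind the divergence computation -/
lemma div_algebra {ε e r P1 P2 a m d k kx c q : ℝ} (hε : 0 < ε) (hr : 0 < r)
    (hk : k = e * r) (hlap : ε ^ 2 * a + d = 0) (hc : c = (2 * ε / 2) ^ 2 * kx ^ 2 + (2 * ε * k) ^ 2)
    (hq : q = 0 ∨ q = e - 1) :
    (ε ^ 2 * (a * P2 + P1 * m) * (q ^ 2 * (3 * e ^ 2 + 2 * e + 1) / (12 * (2 * ε))) +
        ε ^ 2 * (P1 * P2) * (e ^ 2 * q / (2 * ε) * ((kx + e * P1) / r)) +
        ε ^ 2 * ((-P1 * (q ^ 2 * (4 * e - 1) / 6) + r * (q * (2 * e - 1) * ((kx + e * P1) / r))) * kx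
          + r * (q ^ 2 * (4 * e - 1) / 6) * (-4 * k))) +
      ((2 * P2 * d - ε ^ 2 * (2 * P1 * m)) / 2 * (q ^ 2 * (3 * e ^ 2 + 2 * e + 1) / (12 * (2 * ε))) +
        (P2 ^ 2 - ε ^ 2 * P1 ^ 2) / 2 *
          (e ^ 2 * q / (2 * ε) * ((-(2 * ε) * k + e * P2) / r)) +
        ((-P2 * (q ^ 2 * (4 * e - 1) / 6) +
          r * (q * (2 * e - 1) * ((-(2 * ε) * k + e * P2) / r))) * (-(2 * ε) * k) +
          r * (q ^ 2 * (4 * e - 1) / 6) * (-(2 * ε) * (-(2 * ε) * k))) +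
        (-2 * (2 * ε) * c / (4 * ε) * (q ^ 2 / 2) +
          c / (4 * ε) * (q * ((-(2 * ε) * k + e * P2) / r)))) =
    e * q * P2 / (4 * ε * r) * (ε ^ 2 * (e * P1 + kx) ^ 2 + (e * P2 - 2 * ε * k) ^ 2) +
      q / 2 * (e ^ 3 * (ε ^ 2 * P1 ^ 2 + P2 ^ 2) +
        (8 * e ^ 2 - e - 1) / 3 * (ε ^ 2 * (P1 * kx) - 2 * ε * (P2 * k)) + (2 * e - 1) * c) := by
  have hd : d = -(ε ^ 2 * a) := by linarith
  subst hk hd hc
  rcases hq with rfl | rfl
  · ring
  · field_simp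
    ring

end Pool.Agent.W2helper23.Mems
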