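import Mathlib
import Pool.Agent.W2helper23.Mems.Field

set_option autoImplicit false

open MeasureTheory Set Filter Topology

namespace Pool.Agent.W2helper23.Mems

section

variable {ε δ : ℝ} {U : ℝ → ℝ} {Ψ Ψx Ψz : ℝ × ℝ → ℝ}

lemma GG_differentiable {n : ℝ} (hn : n ≠ 0) : Differentiable ℝ (GG n) :=
  fun e => (hasDerivAt_GG hn e).differentiableAt
lemma ZZ_differentiable : Differentiable ℝ ZZ := fun e => (hasDerivAt_ZZ e).differentiableAt
lemma NN_differentiable : Differentiable ℝ NN := fun e => (hasDerivAt_NN e).differentiableAt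

lemma IsPotential.diff (h : IsPotential ε U Ψ Ψx Ψz) (hU : ContinuousOn U (Icc (-1) 1))
    {p : ℝ × ℝ} (hp : p ∈ Omega U) : DifferentiableAt ℝ Ψ p :=
  (h.contDiffOn.differentiableOn (by norm_num)).differentiableAt ((isOpen_Omega hU).mem_nhds hp)

lemma comp1 {F f : ℝ → ℝ} {F' f' x : ℝ} (hF : HasDerivAt F F' (f x)) (hf : HasDerivAt f f' x) :
    HasDerivAt (fun y => F (f y)) (F' * f') x := hF.comp x hf

lemma div_field (h : IsPotential ε U Ψ Ψx Ψz) (hε : 0 < ε) (hU : ContinuousOn U (Icc (-1) 1))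
    {p : ℝ × ℝ} (hp : p ∈ Omega U) (hr : 0 < rho δ Ψ p) :
    DifferentiableAt ℝ (V1 ε δ Ψ Ψx Ψz) p ∧ DifferentiableAt ℝ (V2 ε δ Ψ Ψx Ψz) p ∧
      fderiv ℝ (V1 ε δ Ψ Ψx Ψz) p (1, 0) + fderiv ℝ (V2 ε δ Ψ Ψx Ψz) p (0, 1) =
        QQ ε δ Ψ Ψx Ψz p := by
  have hn : 2 * ε ≠ 0 := by positivity
  have dΨ := h.diff hU hp
  have dx := h.diff_x hU hp
  have dz := h.diff_z hU hp
  have dr : DifferentiableAt ℝ (rho δ Ψ) p := by unfold rho; fun_prop
  have dE : DifferentiableAt ℝ (EE ε δ Ψ) p := by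
    have h0 : EE ε δ Ψ = fun p => kap (2 * ε) p * (rho δ Ψ p)⁻¹ := by
      funext q; rw [EE, div_eq_mul_inv]
    rw [h0]
    exact (kap_differentiable (2 * ε) p).mul (dr.inv hr.ne')
  have dG : DifferentiableAt ℝ (fun p => GG (2 * ε) (EE ε δ Ψ p)) p :=
    (GG_differentiable hn _).comp p dE
  have dZ : DifferentiableAt ℝ (fun p => ZZ (EE ε δ Ψ p)) p :=
    (ZZ_differentiable _).comp p dE
  have dN : DifferentiableAt ℝ (fun p => NN (EE ε δ Ψ p)) p :=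
    (NN_differentiable _).comp p dE
  have dk := kap_differentiable (2 * ε) p
  have dkx := kapx_differentiable (2 * ε) p
  have dc := cc_differentiable (2 * ε) p
  have D1 : DifferentiableAt ℝ (V1 ε δ Ψ Ψx Ψz) p := by
    unfold V1; fun_prop
  have D2 : DifferentiableAt ℝ (V2 ε δ Ψ Ψx Ψz) p := by
    unfold V2; fun_prop
  refine ⟨D1, D2, ?_⟩
  obtain ⟨x, z⟩ := p
  -- slices in the direction x
  have sx1 := h.hasDerivAt_x hU hp
  have sx2 := slice_x dx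
  have sx3 := slice_x dz
  have sz1 := h.hasDerivAt_z hU hp
  have sz2 := slice_z dx
  have sz3 := slice_z dz
  have hsym := h.symm hU hp
  have hlap := h.laplace hU hp
  set a := fderiv ℝ Ψx (x, z) (1, 0) with ha
  set m := fderiv ℝ Ψz (x, z) (1, 0) with hm
  set d := fderiv ℝ Ψz (x, z) (0, 1) with hd
  rw [hsym] at sz2
  have rx : HasDerivAt (fun y => rho δ Ψ (y, z)) (-Ψx (x, z)) x := sx1.const_sub _
  have rz : HasDerivAt (fun y => rho δ Ψ (x, y)) (-Ψz (x, z)) z := sz1.const_sub _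
  set r := rho δ Ψ (x, z) with hrdef
  set k := kap (2 * ε) (x, z) with hk
  set kx := kapx (2 * ε) (x, z) with hkx
  set e := EE ε δ Ψ (x, z) with he
  have hke : k = e * r := by
    rw [he, EE, ← hk, ← hrdef, div_mul_cancel₀ _ hr.ne']
  have Ex : HasDerivAt (fun y => EE ε δ Ψ (y, z)) ((kx + e * Ψx (x, z)) / r) x := by
    have h1 := (kap_x (2 * ε) x z).div rx hr.ne'
    refine h1.congr_deriv ?_
    simp only [← hkx, ← hk, ← hrdef]
    rw [hke]
    field_simp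
    ring
  have Ez : HasDerivAt (fun y => EE ε δ Ψ (x, y)) ((-(2 * ε) * k + e * Ψz (x, z)) / r) z := by
    have h1 := (kap_z (2 * ε) x z).div rz hr.ne'
    refine h1.congr_deriv ?_
    simp only [← hk, ← hrdef]
    rw [hke]
    field_simp
    ring
  have Gx : HasDerivAt (fun y => GG (2 * ε) (EE ε δ Ψ (y, z)))
      (e ^ 2 * pp e / (2 * ε) * ((kx + e * Ψx (x, z)) / r)) x :=
    comp1 (F := GG (2 * ε)) (f := fun y => EE ε δ Ψ (y, z)) (hasDerivAt_GG hn e) Ex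
  have Gz : HasDerivAt (fun y => GG (2 * ε) (EE ε δ Ψ (x, y)))
      (e ^ 2 * pp e / (2 * ε) * ((-(2 * ε) * k + e * Ψz (x, z)) / r)) z :=
    comp1 (F := GG (2 * ε)) (f := fun y => EE ε δ Ψ (x, y)) (hasDerivAt_GG hn e) Ez
  have Zx : HasDerivAt (fun y => ZZ (EE ε δ Ψ (y, z)))
      (pp e * (2 * e - 1) * ((kx + e * Ψx (x, z)) / r)) x :=
    comp1 (F := ZZ) (f := fun y => EE ε δ Ψ (y, z)) (hasDerivAt_ZZ e) Ex
  have Zz : HasDerivAt (fun y => ZZ (EE ε δ Ψ (x, y)))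
      (pp e * (2 * e - 1) * ((-(2 * ε) * k + e * Ψz (x, z)) / r)) z :=
    comp1 (F := ZZ) (f := fun y => EE ε δ Ψ (x, y)) (hasDerivAt_ZZ e) Ez
  have Nz : HasDerivAt (fun y => NN (EE ε δ Ψ (x, y)))
      (pp e * ((-(2 * ε) * k + e * Ψz (x, z)) / r)) z :=
    comp1 (F := NN) (f := fun y => EE ε δ Ψ (x, y)) (hasDerivAt_NN e) Ez
  have W1 : HasDerivAt (fun y => V1 ε δ Ψ Ψx Ψz (y, z))
      (ε ^ 2 * (a * Ψz (x, z) + Ψx (x, z) * m) * GG (2 * ε) e +
        ε ^ 2 * (Ψx (x, z) * Ψz (x, z)) * (e ^ 2 * pp e / (2 * ε) * ((kx + e * Ψx (x, z)) / r)) +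
        ε ^ 2 * ((-Ψx (x, z) * ZZ e + r * (pp e * (2 * e - 1) * ((kx + e * Ψx (x, z)) / r))) * kx +
          r * ZZ e * (-4 * k))) x :=
    ((((sx2.mul sx3).const_mul (ε ^ 2)).mul Gx).add
      (((rx.mul Zx).mul (kapx_x (2 * ε) x z)).const_mul (ε ^ 2)))
  have W2 : HasDerivAt (fun y => V2 ε δ Ψ Ψx Ψz (x, y))
      ((2 * Ψz (x, z) * d - ε ^ 2 * (2 * Ψx (x, z) * m)) / 2 * GG (2 * ε) e +
        (Ψz (x, z) ^ 2 - ε ^ 2 * Ψx (x, z) ^ 2) / 2 *
          (e ^ 2 * pp e / (2 * ε) * ((-(2 * ε) * k + e * Ψz (x, z)) / r)) +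
        ((-Ψz (x, z) * ZZ e +
          r * (pp e * (2 * e - 1) * ((-(2 * ε) * k + e * Ψz (x, z)) / r))) * (-(2 * ε) * k) +
          r * ZZ e * (-(2 * ε) * (-(2 * ε) * k))) +
        (-2 * (2 * ε) * cc (2 * ε) (x, z) / (4 * ε) * NN e +
          cc (2 * ε) (x, z) / (4 * ε) * (pp e * ((-(2 * ε) * k + e * Ψz (x, z)) / r)))) z := by
    have q1 := ((sz3.pow 2).sub ((sz2.pow 2).const_mul (ε ^ 2))).div_const 2
    have q2 := q1.mul Gz
    have q3 := (rz.mul Zz).mul ((kap_z (2 * ε) x z).const_mul (-(2 * ε)))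
    have q4 := ((cc_z (2 * ε) x z).div_const (4 * ε)).mul Nz
    refine HasDerivAt.congr_deriv ((q2.add q3).add q4) ?_
    simp only [Pi.sub_apply, Pi.pow_apply, Pi.mul_apply, ← he, ← hk, ← hrdef]
    norm_num
  have U1 : fderiv ℝ (V1 ε δ Ψ Ψx Ψz) (x, z) (1, 0) = _ := (slice_x D1).unique W1
  have U2 : fderiv ℝ (V2 ε δ Ψ Ψx Ψz) (x, z) (0, 1) = _ := (slice_z D2).unique W2
  rw [U1, U2]
  have hq : pp e = 0 ∨ pp e = e - 1 := by
    rcases le_total e 1 with h1 | h1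
    · exact Or.inl (pp_of_le h1)
    · exact Or.inr (pp_of_ge h1)
  have key := div_algebra (P1 := Ψx (x, z)) (P2 := Ψz (x, z)) (a := a) (m := m) (d := d) hε hr hke hlap
    (cc_eq (2 * ε) (x, z)) hq
  rw [GG, ZZ, NN, QQ]
  simp only [← hk, ← hkx, ← he, ← hrdef] at key ⊢
  exact key

/-- nonnegativity of the divergence -/
lemma QQ_nonneg (hε : 0 < ε) {p : ℝ × ℝ} (hr : 0 < rho δ Ψ p) (hz : 0 ≤ Ψz p) :
    0 ≤ QQ ε δ Ψ Ψx Ψz p := by
  unfold QQ
  set e := EE ε δ Ψ p with he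
  set r := rho δ Ψ p with hrd
  set k := kap (2 * ε) p with hk
  set kx := kapx (2 * ε) p with hkx
  rcases le_total e 1 with h1 | h1
  · rw [pp_of_le h1]; simp
  · rw [pp_of_ge h1]
    have hp : 0 ≤ e - 1 := by linarith
    have he0 : 0 ≤ e := by linarith
    apply add_nonneg
    · apply mul_nonneg
      · apply div_nonneg
        · positivity
        · positivity
      · positivity
    · apply mul_nonneg (by positivity)
      rw [cc_eq]
      rw [← hk, ← hkx]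
      -- quadratic form
      have hdisc : ((8 * e ^ 2 - e - 1) / 3) ^ 2 ≤ 4 * (e ^ 3 * (2 * e - 1)) := by
        have h8 : 0 ≤ 8 * e ^ 2 - 4 * e - 1 := by nlinarith
        have h9 : 0 ≤ (e - 1) ^ 2 * (8 * e ^ 2 - 4 * e - 1) := by positivity
        nlinarith
      have hform : ∀ X Y : ℝ, 0 ≤ e ^ 3 * X ^ 2 + (8 * e ^ 2 - e - 1) / 3 * (X * Y) +
          (2 * e - 1) * Y ^ 2 := by
        intro X Y
        have he3 : 0 < e ^ 3 := by positivity
        have h10 : 0 ≤ 4 * e ^ 3 * (e ^ 3 * X ^ 2 + (8 * e ^ 2 - e - 1) / 3 * (X * Y) +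
          (2 * e - 1) * Y ^ 2) := by
          have : 4 * e ^ 3 * (e ^ 3 * X ^ 2 + (8 * e ^ 2 - e - 1) / 3 * (X * Y) +
            (2 * e - 1) * Y ^ 2) = (2 * e ^ 3 * X + (8 * e ^ 2 - e - 1) / 3 * Y) ^ 2 +
              (4 * (e ^ 3 * (2 * e - 1)) - ((8 * e ^ 2 - e - 1) / 3) ^ 2) * Y ^ 2 := by ring
          rw [this]
          have := mul_nonneg (sub_nonneg.2 hdisc) (sq_nonneg Y)
          positivity
        exact nonneg_of_mul_nonneg_right h10 (by positivity)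
      have f1 := hform (ε * Ψx p) (ε * kx)
      have f2 := hform (Ψz p) (-(2 * ε * k))
      have : e ^ 3 * (ε ^ 2 * Ψx p ^ 2 + Ψz p ^ 2) +
          (8 * e ^ 2 - e - 1) / 3 * (ε ^ 2 * (Ψx p * kx) - 2 * ε * (Ψz p * k)) +
          (2 * e - 1) * ((2 * ε / 2) ^ 2 * kx ^ 2 + (2 * ε * k) ^ 2) =
        (e ^ 3 * (ε * Ψx p) ^ 2 + (8 * e ^ 2 - e - 1) / 3 * ((ε * Ψx p) * (ε * kx)) +
          (2 * e - 1) * (ε * kx) ^ 2) +
        (e ^ 3 * (Ψz p) ^ 2 + (8 * e ^ 2 - e - 1) / 3 * ((Ψz p) * (-(2 * ε * k))) +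
          (2 * e - 1) * (-(2 * ε * k)) ^ 2) := by ring
      rw [this]
      exact add_nonneg f1 f2

end

end Pool.Agent.W2helper23.Mems
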