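import Mathlib
import Pool.Agent.W2helper23.Mems.Field2

set_option autoImplicit false

open MeasureTheory Set Filter Topology

namespace Pool.Agent.W2helper23.Mems

section

variable {ε δ : ℝ} {U U' : ℝ → ℝ} {Ψ Ψx Ψz : ℝ × ℝ → ℝ}

lemma IsPotential.top (h : IsPotential ε U Ψ Ψx Ψz) (hpos : ∀ x ∈ Icc (-1 : ℝ) 1, -1 < U x)
    {x : ℝ} (hx : x ∈ Icc (-1 : ℝ) 1) : Ψ (x, U x) = 1 := by
  have h0 := hpos x hx
  rw [h.boundary x (U x) ⟨hx, h0.le, le_rfl⟩ (fun hh => lt_irrefl _ hh.2.2)]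
  rw [div_self]; linarith

lemma IsPotential.bot (h : IsPotential ε U Ψ Ψx Ψz) (hpos : ∀ x ∈ Icc (-1 : ℝ) 1, -1 < U x)
    {x : ℝ} (hx : x ∈ Icc (-1 : ℝ) 1) : Ψ (x, -1) = 0 := by
  have h0 := hpos x hx
  rw [h.boundary x (-1) ⟨hx, le_rfl, h0.le⟩ (fun hh => lt_irrefl _ hh.2.1)]
  simp

/-- the tangential derivative of the potential vanishes on the graph -/
lemma IsPotential.tangent (h : IsPotential ε U Ψ Ψx Ψz) (hU : ContinuousOn U (Icc (-1) 1))
    (hU' : ∀ x ∈ Ioo (-1 : ℝ) 1, HasDerivAt U (U' x) x) (hU'c : ContinuousOn U' (Ioo (-1) 1))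
    (hpos : ∀ x ∈ Icc (-1 : ℝ) 1, -1 < U x) {x : ℝ} (hx : x ∈ Ioo (-1 : ℝ) 1) :
    Ψx (x, U x) + U' x * Ψz (x, U x) = 0 := by
  -- a compact interval around x
  set x1 : ℝ := (x - 1) / 2 with hx1
  set x2 : ℝ := (x + 1) / 2 with hx2
  have hx' := hx
  obtain ⟨hxa, hxb⟩ := hx'
  have h1 : -1 < x1 := by rw [hx1]; linarith
  have h2 : x1 < x := by rw [hx1]; linarith
  have h3 : x < x2 := by rw [hx2]; linarith
  have h4 : x2 < 1 := by rw [hx2]; linarith
  have hsub : Icc x1 x2 ⊆ Ioo (-1 : ℝ) 1 := fun y hy => ⟨by linarith [hy.1], by linarith [hy.2]⟩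
  have hne : (Icc x1 x2).Nonempty := ⟨x, h2.le, h3.le⟩
  obtain ⟨y0, hy0, hmin⟩ := isCompact_Icc.exists_isMinOn hne (hU.mono (hsub.trans Ioo_subset_Icc_self))
  set η0 : ℝ := (1 + U y0) / 2 with hη0
  have hη0p : 0 < η0 := by
    have := hpos y0 (Ioo_subset_Icc_self (hsub hy0)); rw [hη0]; linarith
  have hUη : ∀ y ∈ Icc x1 x2, -1 < U y - η0 := by
    intro y hy
    have h5 : U y0 ≤ U y := hmin hy
    have := hpos y0 (Ioo_subset_Icc_self (hsub hy0)); rw [hη0]; linarith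
  set cx : ℝ → ℝ := fun y => max x1 (min y x2) with hcx
  set ce : ℝ → ℝ := fun y => max 0 (min y η0) with hce
  have hcxm : ∀ y, cx y ∈ Icc x1 x2 := fun y =>
    ⟨le_max_left _ _, max_le (by linarith) (min_le_right _ _)⟩
  have hcem : ∀ y, ce y ∈ Icc 0 η0 := fun y =>
    ⟨le_max_left _ _, max_le hη0p.le (min_le_right _ _)⟩
  have hcxe : ∀ y ∈ Icc x1 x2, cx y = y := by
    intro y hy; simp only [hcx]; rw [min_eq_left hy.2, max_eq_right hy.1]
  have hcee : ∀ y ∈ Icc 0 η0, ce y = y := by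
    intro y hy; simp only [hce]; rw [min_eq_left hy.2, max_eq_right hy.1]
  have hcxc : Continuous cx := by fun_prop
  have hcec : Continuous ce := by fun_prop
  -- the integrand
  set W : ℝ → ℝ → ℝ := fun e y =>
    Ψx (cx y, U (cx y) - ce e) + U' (cx y) * Ψz (cx y, U (cx y) - ce e) with hW
  have hUcx : Continuous (fun p : ℝ × ℝ => U (cx p.2)) :=
    (hU.mono (hsub.trans Ioo_subset_Icc_self)).comp_continuous (hcxc.comp continuous_snd)
      (fun p => hcxm p.2)
  have hU'cx : Continuous (fun p : ℝ × ℝ => U' (cx p.2)) :=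
    (hU'c.mono hsub).comp_continuous (hcxc.comp continuous_snd) (fun p => hcxm p.2)
  have hmap : Continuous (fun p : ℝ × ℝ => ((cx p.2, U (cx p.2) - ce p.1) : ℝ × ℝ)) :=
    (hcxc.comp continuous_snd).prodMk (hUcx.sub (hcec.comp continuous_fst))
  have hmem : ∀ p : ℝ × ℝ, ((cx p.2, U (cx p.2) - ce p.1) : ℝ × ℝ) ∈ OmegaTop U := by
    intro p
    have a1 := hcxm p.2
    have a2 := hcem p.1
    have a3 := hUη _ a1
    refine ⟨hsub a1, ?_, ?_⟩
    · simp only; linarith [a2.2]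
    · simp only; linarith [a2.1]
  have hWc : Continuous (Function.uncurry W) := by
    have c1 := h.continuousOn_x.comp_continuous hmap hmem
    have c2 := h.continuousOn_z.comp_continuous hmap hmem
    exact c1.add (hU'cx.mul c2)
  -- every primitive vanishes
  have hint : ∀ y1 y2 : ℝ, y1 ∈ Icc x1 x2 → y2 ∈ Icc x1 x2 → y1 ≤ y2 →
      ∫ y in y1..y2, W 0 y = 0 := by
    intro y1 y2 hy1 hy2 hy12
    have hGc : Continuous (fun e => ∫ y in y1..y2, W e y) :=
      intervalIntegral.continuous_parametric_intervalIntegral_of_continuous' hWc y1 y2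
    have hval : ∀ e ∈ Ioo 0 η0, ∫ y in y1..y2, W e y = Ψ (y2, U y2 - e) - Ψ (y1, U y1 - e) := by
      intro e he
      have heI : e ∈ Icc 0 η0 := Ioo_subset_Icc_self he
      apply intervalIntegral.integral_eq_sub_of_hasDerivAt (f := fun y => Ψ (y, U y - e))
      · intro y hy
        rw [uIcc_of_le hy12] at hy
        have hyI : y ∈ Icc x1 x2 := ⟨hy1.1.trans hy.1, hy.2.trans hy2.2⟩
        have hyO : (y, U y - e) ∈ Omega U := by
          refine ⟨hsub hyI, ?_, ?_⟩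
          · have := hUη y hyI; simp only; linarith [he.2]
          · simp only; linarith [he.1]
        have d1 := (h.diff hU hyO).hasFDerivAt
        have d2 : HasDerivAt (fun y : ℝ => ((y, U y - e) : ℝ × ℝ)) (1, U' y) y :=
          (hasDerivAt_id y).prodMk ((hU' y (hsub hyI)).sub_const e)
        have d3 := d1.comp_hasDerivAt y d2
        refine d3.congr_deriv ?_
        rw [h.fderiv_eq hU hyO]
        simp only [hW, hcxe y hyI, hcee e heI, one_mul]
      · have : Continuous (W e) := hWc.comp (by fun_prop : Continuous fun y : ℝ => (e, y))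
        exact this.intervalIntegrable _ _
    have hlim : ∀ y ∈ Icc x1 x2, Tendsto (fun e => Ψ (y, U y - e)) (𝓝[>] 0) (𝓝 1) := by
      intro y hy
      have hy' : y ∈ Icc (-1 : ℝ) 1 := Ioo_subset_Icc_self (hsub hy)
      have c1 : ContinuousOn (fun e : ℝ => Ψ (y, U y - e)) (Icc 0 η0) := by
        apply h.continuousOn.comp (by fun_prop)
        intro e he
        refine ⟨hy', ?_, ?_⟩
        · have := hUη y hy; simp only; linarith [he.2]
        · simp only; linarith [he.1]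
      have c2 := c1 0 ⟨le_rfl, hη0p.le⟩
      have c3 : Tendsto (fun e : ℝ => Ψ (y, U y - e)) (𝓝[Icc 0 η0] 0) (𝓝 (Ψ (y, U y - 0))) := c2
      rw [sub_zero, h.top hpos hy'] at c3
      have c4 : 𝓝[>] (0 : ℝ) ≤ 𝓝[Icc 0 η0] 0 := by
        rw [← nhdsWithin_Ioo_eq_nhdsGT hη0p]
        exact nhdsWithin_mono _ Ioo_subset_Icc_self
      exact c3.mono_left c4
    have l1 : Tendsto (fun e => ∫ y in y1..y2, W e y) (𝓝[>] 0) (𝓝 (∫ y in y1..y2, W 0 y)) :=
      (hGc.tendsto 0).mono_left nhdsWithin_le_nhds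
    have l2 : Tendsto (fun e => ∫ y in y1..y2, W e y) (𝓝[>] 0) (𝓝 (1 - 1)) := by
      refine ((hlim y2 hy2).sub (hlim y1 hy1)).congr' ?_
      rw [← nhdsWithin_Ioo_eq_nhdsGT hη0p]
      filter_upwards [self_mem_nhdsWithin] with e he
      exact (hval e he).symm
    rw [sub_self] at l2
    exact tendsto_nhds_unique l1 l2
  have hW0 : Continuous (W 0) := hWc.comp (by fun_prop : Continuous fun y : ℝ => ((0 : ℝ), y))
  have hderiv : HasDerivAt (fun y => ∫ s in x1..y, W 0 s) (W 0 x) x :=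
    intervalIntegral.integral_hasDerivAt_right (hW0.intervalIntegrable _ _)
      (hW0.stronglyMeasurableAtFilter _ _) hW0.continuousAt
  have hzero : (fun y => ∫ s in x1..y, W 0 s) =ᶠ[𝓝 x] fun _ => (0 : ℝ) := by
    filter_upwards [Ioo_mem_nhds h2 h3] with y hy
    exact hint x1 y ⟨le_rfl, by linarith⟩ ⟨hy.1.le, hy.2.le⟩ hy.1.le
  have h5 : HasDerivAt (fun y => ∫ s in x1..y, W 0 s) 0 x :=
    (hasDerivAt_const x (0 : ℝ)).congr_of_eventuallyEq hzero
  have h6 := hderiv.unique h5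
  have hxI : x ∈ Icc x1 x2 := ⟨h2.le, h3.le⟩
  simp only [hW, hcxe x hxI, hcee 0 ⟨le_rfl, hη0p.le⟩, sub_zero] at h6
  exact h6

end

end Pool.Agent.W2helper23.Mems
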