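import Mathlib
import Pool.Agent.W2helper23.Mems.Top

set_option autoImplicit false

open MeasureTheory Set Filter Topology

namespace Pool.Agent.W2helper23.Mems

section

variable {ε δ b : ℝ} {U : ℝ → ℝ} {Ψ Ψx Ψz : ℝ × ℝ → ℝ}

lemma RegC_sub_ClosedOmega (hb1 : b < 1) : RegC b U ⊆ ClosedOmega U := by
  rintro p ⟨h1, h2, h3⟩
  exact ⟨⟨by linarith [h1.1], by linarith [h1.2]⟩, h2, h3⟩

lemma RegO_sub_Omega (hb1 : b < 1) : RegO b U ⊆ Omega U := by
  rintro p ⟨h1, h2, h3⟩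
  exact ⟨⟨by linarith [h1.1], by linarith [h1.2]⟩, h2, h3⟩

lemma cwa_of_top (hb1 : b < 1) {f : ℝ × ℝ → ℝ} (hf : ContinuousOn f (OmegaTop U)) {p : ℝ × ℝ}
    (hp : p ∈ RegC b U) (hp2 : -1 < p.2) : ContinuousWithinAt f (RegC b U) p := by
  have hsub : ∀ q ∈ RegC b U, -1 < q.2 → q ∈ OmegaTop U := by
    rintro q ⟨h1, h2, h3⟩ h4
    exact ⟨⟨by linarith [h1.1], by linarith [h1.2]⟩, h4, h3⟩
  have h1 : ContinuousWithinAt f (OmegaTop U) p := hf p (hsub p hp hp2)
  apply h1.mono_of_mem_nhdsWithin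
  have h2 : {q : ℝ × ℝ | -1 < q.2} ∈ 𝓝[RegC b U] p :=
    mem_nhdsWithin_of_mem_nhds ((isOpen_lt continuous_const continuous_snd).mem_nhds hp2)
  filter_upwards [h2, self_mem_nhdsWithin] with q hq1 hq2
  exact hsub q hq2 hq1

lemma rho_cont (h : IsPotential ε U Ψ Ψx Ψz) (hb1 : b < 1) :
    ContinuousOn (rho δ Ψ) (RegC b U) := by
  unfold rho
  exact continuousOn_const.sub (h.continuousOn.mono (RegC_sub_ClosedOmega hb1))

lemma rho_pos (h : IsPotential ε U Ψ Ψx Ψz) (hε : 0 < ε) (hδ : 0 < δ)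
    (hU : ContinuousOn U (Icc (-1) 1))
    (hm : U (-1) = 0) (hp1 : U 1 = 0) (hpos : ∀ x ∈ Icc (-1 : ℝ) 1, -1 < U x)
    {p : ℝ × ℝ} (hp : p ∈ ClosedOmega U) : 0 < rho δ Ψ p := by
  have := (h.bounds hε hU hm hp1 hpos hp).2
  unfold rho; linarith

lemma EE_cont (h : IsPotential ε U Ψ Ψx Ψz) (hε : 0 < ε) (hδ : 0 < δ)
    (hU : ContinuousOn U (Icc (-1) 1))
    (hm : U (-1) = 0) (hp1 : U 1 = 0) (hpos : ∀ x ∈ Icc (-1 : ℝ) 1, -1 < U x) (hb1 : b < 1) :
    ContinuousOn (EE ε δ Ψ) (RegC b U) := by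
  unfold EE
  exact (kap_continuous (2 * ε)).continuousOn.div (rho_cont h hb1)
    (fun p hp => (rho_pos h hε hδ hU hm hp1 hpos (RegC_sub_ClosedOmega hb1 hp)).ne')

/-- at the bottom the field vanishes nearby -/
lemma EE_bot (h : IsPotential ε U Ψ Ψx Ψz) (hδ : 0 < δ)
    (hpos : ∀ x ∈ Icc (-1 : ℝ) 1, -1 < U x)
    {x : ℝ} (hx : x ∈ Icc (-1 : ℝ) 1) : EE ε δ Ψ (x, -1) < 1 := by
  unfold EE rho kap
  rw [h.bot hpos hx]
  rw [div_lt_one (by linarith)]
  simp only
  have : Real.cos (2 * x) ≤ 1 := Real.cos_le_one _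
  norm_num
  linarith

lemma cont_of_cases (h : IsPotential ε U Ψ Ψx Ψz) (hε : 0 < ε) (hδ : 0 < δ)
    (hU : ContinuousOn U (Icc (-1) 1))
    (hm : U (-1) = 0) (hp1 : U 1 = 0) (hpos : ∀ x ∈ Icc (-1 : ℝ) 1, -1 < U x) (hb1 : b < 1)
    {F : ℝ × ℝ → ℝ} (hF0 : ∀ p, EE ε δ Ψ p ≤ 1 → F p = 0)
    (hF1 : ∀ p ∈ RegC b U, -1 < p.2 → ContinuousWithinAt F (RegC b U) p) :
    ContinuousOn F (RegC b U) := by
  intro p hp
  by_cases hp2 : -1 < p.2
  · exact hF1 p hp hp2
  · have hp3 : p.2 = -1 := le_antisymm (not_lt.1 hp2) hp.2.1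
    have hpx : p.1 ∈ Icc (-1 : ℝ) 1 := (RegC_sub_ClosedOmega hb1 hp).1
    have hE : EE ε δ Ψ p < 1 := by
      have := EE_bot (ε := ε) h hδ hpos hpx
      rw [← hp3] at this
      exact this
    have hEc := EE_cont h hε hδ hU hm hp1 hpos hb1 p hp
    have h1 : ∀ᶠ q in 𝓝[RegC b U] p, EE ε δ Ψ q < 1 := hEc.eventually (gt_mem_nhds hE)
    have h2 : F =ᶠ[𝓝[RegC b U] p] fun _ => (0 : ℝ) := by
      filter_upwards [h1] with q hq
      exact hF0 q hq.le
    exact (continuousWithinAt_const (b := (0 : ℝ))).congr_of_eventuallyEq h2 (hF0 p hE.le)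

lemma V1_cont (h : IsPotential ε U Ψ Ψx Ψz) (hε : 0 < ε) (hδ : 0 < δ)
    (hU : ContinuousOn U (Icc (-1) 1))
    (hm : U (-1) = 0) (hp1 : U 1 = 0) (hpos : ∀ x ∈ Icc (-1 : ℝ) 1, -1 < U x) (hb1 : b < 1) :
    ContinuousOn (V1 ε δ Ψ Ψx Ψz) (RegC b U) := by
  apply cont_of_cases h hε hδ hU hm hp1 hpos hb1
  · intro p hp
    simp [V1, GG_zero hp, ZZ_zero hp]
  · intro p hp hp2
    have cE := EE_cont h hε hδ hU hm hp1 hpos hb1 p hp
    have cr := rho_cont (δ := δ) h hb1 p hp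
    have cx := cwa_of_top hb1 h.continuousOn_x hp hp2
    have cz := cwa_of_top hb1 h.continuousOn_z hp hp2
    have cG := (GG_continuous (2 * ε)).continuousAt.comp_continuousWithinAt cE
    have cZ := ZZ_continuous.continuousAt.comp_continuousWithinAt cE
    have ck := (kapx_continuous (2 * ε)).continuousAt.continuousWithinAt (s := RegC b U) (x := p)
    unfold V1
    exact ((continuousWithinAt_const.mul (cx.mul cz)).mul cG).add
      (continuousWithinAt_const.mul ((cr.mul cZ).mul ck))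

lemma V2_cont (h : IsPotential ε U Ψ Ψx Ψz) (hε : 0 < ε) (hδ : 0 < δ)
    (hU : ContinuousOn U (Icc (-1) 1))
    (hm : U (-1) = 0) (hp1 : U 1 = 0) (hpos : ∀ x ∈ Icc (-1 : ℝ) 1, -1 < U x) (hb1 : b < 1) :
    ContinuousOn (V2 ε δ Ψ Ψx Ψz) (RegC b U) := by
  apply cont_of_cases h hε hδ hU hm hp1 hpos hb1
  · intro p hp
    simp [V2, GG_zero hp, ZZ_zero hp, NN_zero hp]
  · intro p hp hp2
    have cE := EE_cont h hε hδ hU hm hp1 hpos hb1 p hp
    have cr := rho_cont (δ := δ) h hb1 p hp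
    have cx := cwa_of_top hb1 h.continuousOn_x hp hp2
    have cz := cwa_of_top hb1 h.continuousOn_z hp hp2
    have cG := (GG_continuous (2 * ε)).continuousAt.comp_continuousWithinAt cE
    have cZ := ZZ_continuous.continuousAt.comp_continuousWithinAt cE
    have cN := NN_continuous.continuousAt.comp_continuousWithinAt cE
    have ck := (kap_continuous (2 * ε)).continuousAt.continuousWithinAt (s := RegC b U) (x := p)
    have cc' := (cc_continuous (2 * ε)).continuousAt.continuousWithinAt (s := RegC b U) (x := p)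
    unfold V2
    exact ((((cz.pow 2).sub (continuousWithinAt_const.mul (cx.pow 2))).div_const 2).mul cG).add
      ((cr.mul cZ).mul (continuousWithinAt_const.mul ck)) |>.add
      ((cc'.div_const (4 * ε)).mul cN)

lemma QQ_cont (h : IsPotential ε U Ψ Ψx Ψz) (hε : 0 < ε) (hδ : 0 < δ)
    (hU : ContinuousOn U (Icc (-1) 1))
    (hm : U (-1) = 0) (hp1 : U 1 = 0) (hpos : ∀ x ∈ Icc (-1 : ℝ) 1, -1 < U x) (hb1 : b < 1) :
    ContinuousOn (QQ ε δ Ψ Ψx Ψz) (RegC b U) := by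
  apply cont_of_cases h hε hδ hU hm hp1 hpos hb1
  · intro p hp
    simp [QQ, pp_of_le hp]
  · intro p hp hp2
    have cE := EE_cont h hε hδ hU hm hp1 hpos hb1 p hp
    have cr := rho_cont (δ := δ) h hb1 p hp
    have hr := rho_pos h hε hδ hU hm hp1 hpos (RegC_sub_ClosedOmega hb1 hp)
    have cx := cwa_of_top hb1 h.continuousOn_x hp hp2
    have cz := cwa_of_top hb1 h.continuousOn_z hp hp2
    have cp := pp_continuous.continuousAt.comp_continuousWithinAt cE
    have ck := (kap_continuous (2 * ε)).continuousAt.continuousWithinAt (s := RegC b U) (x := p)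
    have ckx := (kapx_continuous (2 * ε)).continuousAt.continuousWithinAt (s := RegC b U) (x := p)
    have cc' := (cc_continuous (2 * ε)).continuousAt.continuousWithinAt (s := RegC b U) (x := p)
    have c4 : ContinuousWithinAt (fun _ : ℝ × ℝ => 4 * ε) (RegC b U) p := continuousWithinAt_const
    have ce2 : ContinuousWithinAt (fun _ : ℝ × ℝ => ε ^ 2) (RegC b U) p := continuousWithinAt_const
    have c2e : ContinuousWithinAt (fun _ : ℝ × ℝ => 2 * ε) (RegC b U) p := continuousWithinAt_const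
    have c8 : ContinuousWithinAt (fun _ : ℝ × ℝ => (8 : ℝ)) (RegC b U) p := continuousWithinAt_const
    have c1 : ContinuousWithinAt (fun _ : ℝ × ℝ => (1 : ℝ)) (RegC b U) p := continuousWithinAt_const
    have c2 : ContinuousWithinAt (fun _ : ℝ × ℝ => (2 : ℝ)) (RegC b U) p := continuousWithinAt_const
    unfold QQ
    refine ContinuousWithinAt.add (ContinuousWithinAt.mul (ContinuousWithinAt.div
      ((cE.mul cp).mul cz) (c4.mul cr) (by positivity)) ?_) (ContinuousWithinAt.mul (cp.div_const 2) ?_)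
    · exact (ce2.mul (((cE.mul cx).add ckx).pow 2)).add (((cE.mul cz).sub (c2e.mul ck)).pow 2)
    · exact (((cE.pow 3).mul ((ce2.mul (cx.pow 2)).add (cz.pow 2))).add
        (((((c8.mul (cE.pow 2)).sub cE).sub c1).div_const 3).mul
          ((ce2.mul (cx.mul ckx)).sub (c2e.mul (cz.mul ck))))).add
        (((c2.mul cE).sub c1).mul cc')

end

end Pool.Agent.W2helper23.Mems
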