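import Mathlib
import Pool.Agent.W2helper23.Mems.Star

set_option autoImplicit false

open MeasureTheory Set Filter Topology

namespace Pool.Agent.W2helper23.Mems

section

variable {ε δ : ℝ} {U : ℝ → ℝ} {Ψ Ψx Ψz : ℝ × ℝ → ℝ}

/-- `q x = exp (- 2 ε (1 + U x))` -/
noncomputable def qq (ε : ℝ) (U : ℝ → ℝ) (x : ℝ) : ℝ := Real.exp (-(2 * ε * (1 + U x)))

/-- `E` on the graph -/
noncomputable def ET (ε δ : ℝ) (U : ℝ → ℝ) (x : ℝ) : ℝ := Real.cos (2 * x) * qq ε U x / δ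

/-- the boundary term `W` -/
noncomputable def WW (ε δ : ℝ) (U : ℝ → ℝ) (x : ℝ) : ℝ :=
  (2 * ε) / 12 * δ * (Real.sin (2 * x) * qq ε U x * (pp (ET ε δ U x) ^ 2 * (ET ε δ U x - 1)))

lemma qq_deriv {U' : ℝ} {x : ℝ} (hU : HasDerivAt U U' x) :
    HasDerivAt (qq ε U) (-(2 * ε) * U' * qq ε U x) x := by
  have h1 : HasDerivAt (fun y => -(2 * ε * (1 + U y))) (-(2 * ε * U')) x :=
    ((hU.const_add 1).const_mul (2 * ε)).neg
  refine h1.exp.congr_deriv ?_
  simp only [qq]; ring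

lemma ET_deriv {U' : ℝ} {x : ℝ} (hδ : δ ≠ 0) (hU : HasDerivAt U U' x) :
    HasDerivAt (ET ε δ U) (-(2 * Real.sin (2 * x)) * qq ε U x / δ - 2 * ε * U' * ET ε δ U x) x := by
  have h1 := ((cos2_deriv x).mul (qq_deriv (ε := ε) hU)).div_const δ
  refine h1.congr_deriv ?_
  simp only [ET]
  field_simp
  ring

lemma WW_deriv {U' : ℝ} {x : ℝ} (hδ : δ ≠ 0) (hU : HasDerivAt U U' x) :
    HasDerivAt (WW ε δ U)
      (2 * ε * δ ^ 2 * ET ε δ U x * ZZ (ET ε δ U x)
        - 2 * ε ^ 2 * δ * ZZ (ET ε δ U x) * U' * Real.sin (2 * x) * qq ε U x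
        - ε * (qq ε U x) ^ 2 * pp (ET ε δ U x) ^ 2) x := by
  have hE := ET_deriv (ε := ε) hδ hU
  have hq := qq_deriv (ε := ε) hU
  have hp2 : HasDerivAt (fun y => pp (ET ε δ U y) ^ 2) (2 * pp (ET ε δ U x) *
      (-(2 * Real.sin (2 * x)) * qq ε U x / δ - 2 * ε * U' * ET ε δ U x)) x :=
    comp1 (F := fun e => pp e ^ 2) (f := ET ε δ U) (hasDerivAt_pp_sq _) hE
  have h1 := (((sin2_deriv x).mul hq).mul (hp2.mul (hE.sub_const 1))).const_mul ((2 * ε) / 12 * δ)
  refine h1.congr_deriv ?_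
  have hpp := pp_mul (ET ε δ U x)
  have hsc : Real.cos (2 * x) ^ 2 = 1 - Real.sin (2 * x) ^ 2 := by
    have := Real.sin_sq_add_cos_sq (2 * x); linarith
  have hcq : Real.cos (2 * x) * qq ε U x = δ * ET ε δ U x := by
    simp only [ET]; field_simp
  simp only [Pi.mul_apply]
  set e := ET ε δ U x with he
  set q := qq ε U x with hqd
  set s := Real.sin (2 * x) with hs
  set c := Real.cos (2 * x) with hc
  set p := pp e with hp
  have hp2' : p ^ 2 = p * (e - 1) := by rw [sq]; exact hpp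
  -- s² q² = q² - δ² e²
  have hs2 : s ^ 2 * q ^ 2 = q ^ 2 - δ ^ 2 * e ^ 2 := by
    have : c ^ 2 * q ^ 2 = δ ^ 2 * e ^ 2 := by rw [← mul_pow, hcq, mul_pow]
    have h3 : s ^ 2 = 1 - c ^ 2 := by linarith
    rw [h3]; linear_combination -this
  have hZ : ZZ e = p ^ 2 * (4 * e - 1) / 6 := by rw [ZZ]
  rw [hZ]
  -- express everything through p and e
  have e1 : (2 * p * (-(2 * s) * q / δ - 2 * ε * U' * e)) * (e - 1) +
      p ^ 2 * (-(2 * s) * q / δ - 2 * ε * U' * e) =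
      3 * p ^ 2 * (-(2 * s) * q / δ - 2 * ε * U' * e) := by
    rw [hp2']; ring
  rw [e1]
  have e2 : 2 * ε / 12 * δ * ((2 * c * q + s * (-(2 * ε) * U' * q)) * (p ^ 2 * (e - 1)) +
      s * q * (3 * p ^ 2 * (-(2 * s) * q / δ - 2 * ε * U' * e))) =
      2 * ε / 12 * p ^ 2 * (2 * δ * (c * q) * (e - 1) - 2 * ε * U' * δ * s * q * (e - 1)
        - 6 * (s ^ 2 * q ^ 2) - 6 * ε * U' * δ * s * q * e) := by
    field_simp
    ring
  rw [e2, hcq, hs2]
  ring

/-- top flux identity -/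
lemma top_flux (hδ : 0 < δ) (hε : 0 < ε) (h : IsPotential ε U Ψ Ψx Ψz)
    (hpos : ∀ x ∈ Icc (-1 : ℝ) 1, -1 < U x) {x U' : ℝ} (hx : x ∈ Icc (-1 : ℝ) 1)
    (ht : Ψx (x, U x) + U' * Ψz (x, U x) = 0) :
    V2 ε δ Ψ Ψx Ψz (x, U x) - U' * V1 ε δ Ψ Ψx Ψz (x, U x) =
      1 / 2 * (force ε U Ψx Ψz x * GG (2 * ε) (ET ε δ U x)) -
      (2 * ε * δ ^ 2 * ET ε δ U x * ZZ (ET ε δ U x)
        - 2 * ε ^ 2 * δ * ZZ (ET ε δ U x) * U' * Real.sin (2 * x) * qq ε U x
        - ε * (qq ε U x) ^ 2 * pp (ET ε δ U x) ^ 2)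
      - ε / 2 * ((qq ε U x) ^ 2 * pp (ET ε δ U x) ^ 2) := by
  have hrho : rho δ Ψ (x, U x) = δ := by
    unfold rho; rw [h.top hpos hx]; ring
  have hk : kap (2 * ε) (x, U x) = Real.cos (2 * x) * qq ε U x := rfl
  have hkx : kapx (2 * ε) (x, U x) = -(2 * Real.sin (2 * x)) * qq ε U x := rfl
  have hc : cc (2 * ε) (x, U x) = (2 * ε) ^ 2 * qq ε U x ^ 2 := rfl
  have hE : EE ε δ Ψ (x, U x) = ET ε δ U x := by
    unfold EE; rw [hrho, hk]; rfl
  have hcq : Real.cos (2 * x) * qq ε U x = δ * ET ε δ U x := by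
    simp only [ET]; field_simp
  unfold V1 V2 force
  rw [hE, hrho, hk, hkx, hc, hcq, NN]
  have hΨx : Ψx (x, U x) = -(U' * Ψz (x, U x)) := by linarith
  rw [hΨx]
  field_simp
  ring

/-- the key inequality -/
lemma star (h : IsPotential ε U Ψ Ψx Ψz) (hε : 0 < ε) (hδ : 0 < δ)
    (hU2 : ContDiffOn ℝ 2 U (Icc (-1) 1))
    (hm : U (-1) = 0) (hp1 : U 1 = 0) (hpos : ∀ x ∈ Icc (-1 : ℝ) 1, -1 < U x) :
    ε * ∫ x in (-(9 / 10 : ℝ))..(9 / 10), (qq ε U x) ^ 2 * pp (ET ε δ U x) ^ 2 ≤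
      ∫ x in (-(9 / 10 : ℝ))..(9 / 10), force ε U Ψx Ψz x * GG (2 * ε) (ET ε δ U x) := by
  have hUc : ContinuousOn U (Icc (-1) 1) := hU2.continuousOn
  have hCD : ∀ x ∈ Ioo (-1 : ℝ) 1, ContDiffAt ℝ 2 U x := fun x hx =>
    hU2.contDiffAt (Icc_mem_nhds hx.1 hx.2)
  have hUd : ∀ x ∈ Ioo (-1 : ℝ) 1, HasDerivAt U (deriv U x) x := fun x hx =>
    ((hCD x hx).differentiableAt (by norm_num)).hasDerivAt
  have hCD1 : ContDiffOn ℝ 1 (deriv U) (Ioo (-1) 1) := by
    have h1 : ContDiffOn ℝ (1 + 1) U (Ioo (-1) 1) :=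
      (hU2.mono Ioo_subset_Icc_self).of_le (by norm_num)
    exact ((contDiffOn_succ_iff_deriv_of_isOpen isOpen_Ioo).1 h1).2.2
  have hU'c : ContinuousOn (deriv U) (Ioo (-1) 1) := hCD1.continuousOn
  have hU'd : ∀ x ∈ Ioo (-1 : ℝ) 1, DifferentiableAt ℝ (deriv U) x := fun x hx =>
    (hCD1.differentiableOn (by norm_num)).differentiableAt (isOpen_Ioo.mem_nhds hx)
  set b : ℝ := 9 / 10 with hb
  have hb0 : 0 < b := by rw [hb]; norm_num
  have hb1 : b < 1 := by rw [hb]; norm_num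
  have hbb : -b ≤ b := by linarith
  have hsub : Icc (-b) b ⊆ Ioo (-1 : ℝ) 1 := fun x hx => ⟨by linarith [hx.1], by linarith [hx.2]⟩
  have hcosb : Real.cos (2 * b) < 0 := by
    apply Real.cos_neg_of_pi_div_two_lt_of_lt
    · have := Real.pi_lt_d2; rw [hb]; linarith
    · have := Real.pi_gt_d2; rw [hb]; linarith
  have hkb : ∀ z, kap (2 * ε) (b, z) < 0 := by
    intro z
    unfold kap
    exact mul_neg_of_neg_of_pos hcosb (Real.exp_pos _)
  have hkb' : ∀ z, kap (2 * ε) (-b, z) < 0 := by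
    intro z
    unfold kap
    simp only
    have : 2 * -b = -(2 * b) := by ring
    rw [this, Real.cos_neg]
    exact mul_neg_of_neg_of_pos hcosb (Real.exp_pos _)
  have hV1z : ∀ p : ℝ × ℝ, p ∈ RegC b U → kap (2 * ε) p < 0 → V1 ε δ Ψ Ψx Ψz p = 0 := by
    intro p hp hk
    have hr := rho_pos h hε hδ hUc hm hp1 hpos (RegC_sub_ClosedOmega hb1 hp)
    have hE : EE ε δ Ψ p ≤ 1 := by
      unfold EE
      have := div_neg_of_neg_of_pos hk hr
      linarith
    simp [V1, GG_zero hE, ZZ_zero hE]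
  have key := graph_div hb0 (U := U) (U' := deriv U) (fun x hx => hUd x (hsub hx)) (hU'c.mono hsub)
    (fun x hx => hU'd x (hsub (Ioo_subset_Icc_self hx)))
    (fun x hx => hpos x (Ioo_subset_Icc_self (hsub hx)))
    (V1_cont h hε hδ hUc hm hp1 hpos hb1) (V2_cont h hε hδ hUc hm hp1 hpos hb1)
    (fun p hp => (div_field h hε hUc (RegO_sub_Omega hb1 hp)
      (rho_pos h hε hδ hUc hm hp1 hpos (Omega_sub U (RegO_sub_Omega hb1 hp)))).1)
    (fun p hp => (div_field h hε hUc (RegO_sub_Omega hb1 hp)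
      (rho_pos h hε hδ hUc hm hp1 hpos (Omega_sub U (RegO_sub_Omega hb1 hp)))).2.1)
    (fun p hp => (div_field h hε hUc (RegO_sub_Omega hb1 hp)
      (rho_pos h hε hδ hUc hm hp1 hpos (Omega_sub U (RegO_sub_Omega hb1 hp)))).2.2)
    (QQ_cont h hε hδ hUc hm hp1 hpos hb1)
    (by
      intro x hx
      have hE := (EE_bot (ε := ε) h hδ hpos (Ioo_subset_Icc_self (hsub hx))).le
      simp [V2, GG_zero hE, ZZ_zero hE, NN_zero hE])
    (fun z hz => hV1z _ hz (hkb' z)) (fun z hz => hV1z _ hz (hkb z))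
  have hnonneg : 0 ≤ ∫ x in (-b)..b, ∫ s in (0 : ℝ)..1,
      (1 + U x) * QQ ε δ Ψ Ψx Ψz (x, -1 + (1 + U x) * s) := by
    apply intervalIntegral.integral_nonneg hbb
    intro x hx
    have hxI := hsub hx
    have hUx := hpos x (Ioo_subset_Icc_self hxI)
    apply intervalIntegral.integral_nonneg_of_ae_restrict zero_le_one
    rw [Measure.restrict_congr_set Ioo_ae_eq_Icc.symm]
    apply ae_restrict_of_forall_mem measurableSet_Ioo
    intro s hs
    have hO : (x, -1 + (1 + U x) * s) ∈ Omega U := by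
      refine ⟨hxI, ?_, ?_⟩
      · have : 0 < (1 + U x) * s := mul_pos (by linarith) hs.1
        simp only; linarith
      · simp only; nlinarith [hs.1, hs.2]
    have hQ := QQ_nonneg (Ψx := Ψx) hε
      (rho_pos h hε hδ hUc hm hp1 hpos (Omega_sub U hO))
      (h.pz_nonneg hε hUc hm hp1 hpos hO)
    simp only [Pi.zero_apply]
    exact mul_nonneg (by linarith) hQ
  rw [key] at hnonneg
  -- continuity of everything on [-b, b]
  have hcU : ContinuousOn U (Icc (-b) b) := hUc.mono (hsub.trans Ioo_subset_Icc_self)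
  have hcU' : ContinuousOn (deriv U) (Icc (-b) b) := hU'c.mono hsub
  have hcq : ContinuousOn (qq ε U) (Icc (-b) b) := by
    unfold qq
    exact Real.continuous_exp.comp_continuousOn
      ((continuousOn_const.mul (continuousOn_const.add hcU)).neg)
  have hccos : Continuous (fun x : ℝ => Real.cos (2 * x)) := by fun_prop
  have hcsin : Continuous (fun x : ℝ => Real.sin (2 * x)) := by fun_prop
  have hcE : ContinuousOn (ET ε δ U) (Icc (-b) b) := by
    unfold ET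
    exact (hccos.continuousOn.mul hcq).div_const δ
  have hcp : ContinuousOn (fun x => pp (ET ε δ U x)) (Icc (-b) b) :=
    pp_continuous.comp_continuousOn hcE
  have hcZ : ContinuousOn (fun x => ZZ (ET ε δ U x)) (Icc (-b) b) :=
    ZZ_continuous.comp_continuousOn hcE
  have hcG : ContinuousOn (fun x => GG (2 * ε) (ET ε δ U x)) (Icc (-b) b) :=
    (GG_continuous (2 * ε)).comp_continuousOn hcE
  have hmap : ContinuousOn (fun x => ((x, U x) : ℝ × ℝ)) (Icc (-b) b) := continuousOn_id.prodMk hcU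
  have hmem : ∀ x ∈ Icc (-b) b, ((x, U x) : ℝ × ℝ) ∈ OmegaTop U := fun x hx =>
    ⟨hsub hx, hpos x (Ioo_subset_Icc_self (hsub hx)), le_rfl⟩
  have hcf : ContinuousOn (force ε U Ψx Ψz) (Icc (-b) b) := by
    unfold force
    exact (continuousOn_const.mul ((h.continuousOn_x.comp hmap hmem).pow 2)).add
      ((h.continuousOn_z.comp hmap hmem).pow 2)
  have iG : IntervalIntegrable (fun x => force ε U Ψx Ψz x * GG (2 * ε) (ET ε δ U x)) volume (-b) b :=
    (hcf.mul hcG).intervalIntegrable_of_Icc hbb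
  have iq : IntervalIntegrable (fun x => (qq ε U x) ^ 2 * pp (ET ε δ U x) ^ 2) volume (-b) b :=
    ((hcq.pow 2).mul (hcp.pow 2)).intervalIntegrable_of_Icc hbb
  set D : ℝ → ℝ := fun x => 2 * ε * δ ^ 2 * ET ε δ U x * ZZ (ET ε δ U x)
        - 2 * ε ^ 2 * δ * ZZ (ET ε δ U x) * deriv U x * Real.sin (2 * x) * qq ε U x
        - ε * (qq ε U x) ^ 2 * pp (ET ε δ U x) ^ 2 with hD
  have iD : IntervalIntegrable D volume (-b) b := by
    apply ContinuousOn.intervalIntegrable_of_Icc hbb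
    exact (((continuousOn_const.mul hcE).mul hcZ).sub
      ((((continuousOn_const.mul hcZ).mul hcU').mul hcsin.continuousOn).mul hcq)).sub
      ((continuousOn_const.mul (hcq.pow 2)).mul (hcp.pow 2))
  have hDint : ∫ x in (-b)..b, D x = 0 := by
    have h1 := intervalIntegral.integral_eq_sub_of_hasDerivAt (f := WW ε δ U) (f' := D) (a := -b)
      (b := b) (fun x hx => by
        rw [uIcc_of_le hbb] at hx
        exact WW_deriv hδ.ne' (hUd x (hsub hx))) iD
    rw [h1]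
    have hEb : ET ε δ U b ≤ 1 := by
      have : ET ε δ U b < 0 := by
        unfold ET
        exact div_neg_of_neg_of_pos (mul_neg_of_neg_of_pos hcosb (Real.exp_pos _)) hδ
      linarith
    have hEb' : ET ε δ U (-b) ≤ 1 := by
      have : ET ε δ U (-b) < 0 := by
        unfold ET
        have h2 : 2 * -b = -(2 * b) := by ring
        rw [h2, Real.cos_neg]
        exact div_neg_of_neg_of_pos (mul_neg_of_neg_of_pos hcosb (Real.exp_pos _)) hδ
      linarith
    simp [WW, pp_of_le hEb, pp_of_le hEb']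
  have hfl : ∫ x in (-b)..b, (V2 ε δ Ψ Ψx Ψz (x, U x) - deriv U x * V1 ε δ Ψ Ψx Ψz (x, U x)) =
      ∫ x in (-b)..b, (1 / 2 * (force ε U Ψx Ψz x * GG (2 * ε) (ET ε δ U x)) - D x
        - ε / 2 * ((qq ε U x) ^ 2 * pp (ET ε δ U x) ^ 2)) := by
    apply intervalIntegral.integral_congr
    intro x hx
    rw [uIcc_of_le hbb] at hx
    have hxI := hsub hx
    exact top_flux hδ hε h hpos (Ioo_subset_Icc_self hxI) (h.tangent hUc hUd hU'c hpos hxI)
  rw [hfl, intervalIntegral.integral_sub ((iG.const_mul _).sub iD) (iq.const_mul _),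
    intervalIntegral.integral_sub (iG.const_mul _) iD, intervalIntegral.integral_const_mul,
    intervalIntegral.integral_const_mul, hDint] at hnonneg
  linarith

end

end Pool.Agent.W2helper23.Mems
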