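import Mathlib
import Pool.Agent.W2helper23.Mems.Star2

set_option autoImplicit false

open MeasureTheory Set Filter Topology

namespace Pool.Agent.W2helper23.Mems

/-! ### The weight -/

/-- the weight `(1 - x²)² + M (1 - x²)⁴` -/
noncomputable def wt (M x : ℝ) : ℝ := (1 - x ^ 2) ^ 2 + M * (1 - x ^ 2) ^ 4

lemma wt_continuous (M : ℝ) : Continuous (wt M) := by unfold wt; fun_prop

lemma wt_nonneg {M : ℝ} (hM : 0 ≤ M) (x : ℝ) : 0 ≤ wt M x := by unfold wt; positivity

lemma wt_le {M : ℝ} (hM : 0 ≤ M) {x : ℝ} (hx : x ∈ Icc (-1 : ℝ) 1) : wt M x ≤ 1 + M := by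
  unfold wt
  have h1 : 0 ≤ 1 - x ^ 2 := by nlinarith [hx.1, hx.2]
  have h2 : 1 - x ^ 2 ≤ 1 := by nlinarith
  have h3 : (1 - x ^ 2) ^ 2 ≤ 1 := pow_le_one₀ h1 h2
  have h4 : (1 - x ^ 2) ^ 4 ≤ 1 := pow_le_one₀ h1 h2
  nlinarith

lemma wt_ge {M : ℝ} (hM : 0 ≤ M) {x : ℝ} (hx : x ∈ Icc (-(9 / 10) : ℝ) (9 / 10)) :
    1 / 28 ≤ wt M x := by
  unfold wt
  have h1 : 19 / 100 ≤ 1 - x ^ 2 := by nlinarith [hx.1, hx.2]
  have h3 : (19 / 100) ^ 2 ≤ (1 - x ^ 2) ^ 2 := pow_le_pow_left₀ (by norm_num) h1 2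
  have h4 : 0 ≤ M * (1 - x ^ 2) ^ 4 := by positivity
  nlinarith

lemma wt_prim (M x : ℝ) : HasDerivAt (fun x : ℝ => (x - 2 / 3 * x ^ 3 + x ^ 5 / 5) +
    M * (x - 4 / 3 * x ^ 3 + 6 / 5 * x ^ 5 - 4 / 7 * x ^ 7 + x ^ 9 / 9)) (wt M x) x := by
  have h : ∀ n : ℕ, HasDerivAt (fun x : ℝ => x ^ n) ((n : ℝ) * x ^ (n - 1)) x :=
    fun n => hasDerivAt_pow n x
  have h1 := (((hasDerivAt_id x).sub ((h 3).const_mul (2 / 3))).add ((h 5).div_const 5)).add
    ((((((hasDerivAt_id x).sub ((h 3).const_mul (4 / 3))).add ((h 5).const_mul (6 / 5))).sub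
      ((h 7).const_mul (4 / 7))).add ((h 9).div_const 9)).const_mul M)
  refine h1.congr_deriv ?_
  unfold wt
  norm_num
  ring

/-- `m₀ = ∫ wt` -/
noncomputable def m0 (M : ℝ) : ℝ := 16 / 15 + M * (256 / 315)

lemma wt_integral (M : ℝ) : ∫ x in (-1 : ℝ)..1, wt M x = m0 M := by
  rw [intervalIntegral.integral_eq_sub_of_hasDerivAt (fun x _ => wt_prim M x)
    ((wt_continuous M).intervalIntegrable _ _)]
  unfold m0
  norm_num
  ring

lemma wt_integral_mid {M : ℝ} (hM : 0 ≤ M) :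
    9 / 10 * m0 M ≤ ∫ x in (-(7 / 10) : ℝ)..(7 / 10), wt M x := by
  rw [intervalIntegral.integral_eq_sub_of_hasDerivAt (fun x _ => wt_prim M x)
    ((wt_continuous M).intervalIntegrable _ _)]
  unfold m0
  norm_num
  nlinarith

lemma m0_pos {M : ℝ} (hM : 0 ≤ M) : 0 < m0 M := by unfold m0; positivity

/-- lower bound for the integral of the force against the weight -/
lemma force_lower {ε M : ℝ} (hε : 0 < ε) (hM : 0 ≤ M) :
    ∃ c0 : ℝ, 0 < c0 ∧ ∀ (U : ℝ → ℝ) (Ψ Ψx Ψz : ℝ × ℝ → ℝ), IsPotential ε U Ψ Ψx Ψz →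
      ContDiffOn ℝ 2 U (Icc (-1) 1) → U (-1) = 0 → U 1 = 0 → (∀ x ∈ Icc (-1 : ℝ) 1, -1 < U x) →
      IntervalIntegrable (force ε U Ψx Ψz) volume (-1) 1 →
      ∫ x in (-1 : ℝ)..1, U x * wt M x ≤ m0 M / 10 →
      c0 ≤ ∫ x in (-1 : ℝ)..1, force ε U Ψx Ψz x * wt M x := by
  set q0 : ℝ := Real.exp (-(4 * ε)) with hq0
  have hq0p : 0 < q0 := Real.exp_pos _
  set c1 : ℝ := Real.cos (14 / 10) with hc1
  have hc1p : 0 < c1 := by
    apply Real.cos_pos_of_mem_Ioo
    have := Real.pi_gt_d2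
    constructor <;> norm_num <;> linarith
  set δ : ℝ := c1 * q0 / 2 with hδd
  have hδ : 0 < δ := by positivity
  set κ0 : ℝ := q0 ^ 2 / (1 + M) with hκ0
  have hκ0p : 0 < κ0 := by positivity
  set Gm : ℝ := 1 / (4 * ε * δ ^ 4) with hGm
  have hGmp : 0 < Gm := by positivity
  have hm0 := m0_pos hM
  refine ⟨1 / 28 / Gm * (ε * (κ0 * (7 / 20 * m0 M))), by positivity, ?_⟩
  intro U Ψ Ψx Ψz h hU2 hm hp1 hpos hint hle
  have hUc : ContinuousOn U (Icc (-1) 1) := hU2.continuousOn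
  have hstar := star h hε hδ hU2 hm hp1 hpos
  have hfn : ∀ x, 0 ≤ force ε U Ψx Ψz x := fun x => by unfold force; positivity
  -- integrability
  have i9 : IntervalIntegrable (force ε U Ψx Ψz) volume (-(9 / 10)) (9 / 10) := by
    apply hint.mono_set
    rw [uIcc_of_le (by norm_num), uIcc_of_le (by norm_num)]
    exact Icc_subset_Icc (by norm_num) (by norm_num)
  have ifw : IntervalIntegrable (fun x => force ε U Ψx Ψz x * wt M x) volume (-1) 1 :=
    hint.mul_continuousOn (wt_continuous M).continuousOn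
  have ifw9 : IntervalIntegrable (fun x => force ε U Ψx Ψz x * wt M x) volume (-(9 / 10)) (9 / 10) :=
    i9.mul_continuousOn (wt_continuous M).continuousOn
  have hcU9 : ContinuousOn U (Icc (-(9 / 10)) (9 / 10)) :=
    hUc.mono (Icc_subset_Icc (by norm_num) (by norm_num))
  have hcq : ContinuousOn (qq ε U) (Icc (-(9 / 10)) (9 / 10)) := by
    unfold qq
    exact Real.continuous_exp.comp_continuousOn
      ((continuousOn_const.mul (continuousOn_const.add hcU9)).neg)
  have hcE : ContinuousOn (ET ε δ U) (Icc (-(9 / 10)) (9 / 10)) := by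
    have hccos : Continuous (fun x : ℝ => Real.cos (2 * x)) := by fun_prop
    unfold ET
    exact (hccos.continuousOn.mul hcq).div_const δ
  have hcG : ContinuousOn (fun x => GG (2 * ε) (ET ε δ U x)) (Icc (-(9 / 10)) (9 / 10)) :=
    (GG_continuous (2 * ε)).comp_continuousOn hcE
  have hcp : ContinuousOn (fun x => pp (ET ε δ U x)) (Icc (-(9 / 10)) (9 / 10)) :=
    pp_continuous.comp_continuousOn hcE
  have ifG : IntervalIntegrable (fun x => force ε U Ψx Ψz x * GG (2 * ε) (ET ε δ U x)) volume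
      (-(9 / 10)) (9 / 10) :=
    i9.mul_continuousOn (by rw [uIcc_of_le (by norm_num)]; exact hcG)
  have hcqp : ContinuousOn (fun x => (qq ε U x) ^ 2 * pp (ET ε δ U x) ^ 2)
      (Icc (-(9 / 10)) (9 / 10)) := (hcq.pow 2).mul (hcp.pow 2)
  have iqp : IntervalIntegrable (fun x => (qq ε U x) ^ 2 * pp (ET ε δ U x) ^ 2) volume
      (-(9 / 10)) (9 / 10) := hcqp.intervalIntegrable_of_Icc (by norm_num)
  have iqp7 : IntervalIntegrable (fun x => (qq ε U x) ^ 2 * pp (ET ε δ U x) ^ 2) volume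
      (-(7 / 10)) (7 / 10) :=
    (hcqp.mono (Icc_subset_Icc (by norm_num) (by norm_num))).intervalIntegrable_of_Icc (by norm_num)
  -- step 1
  have s1 : ∫ x in (-(9 / 10 : ℝ))..(9 / 10), force ε U Ψx Ψz x * wt M x ≤
      ∫ x in (-1 : ℝ)..1, force ε U Ψx Ψz x * wt M x := by
    apply intervalIntegral.integral_mono_interval (by norm_num) (by norm_num) (by norm_num) _ ifw
    exact Filter.Eventually.of_forall fun x => mul_nonneg (hfn x) (wt_nonneg hM x)
  -- step 2
  have hGbound : ∀ x, GG (2 * ε) (ET ε δ U x) ≤ Gm ∨ True := fun x => Or.inr trivial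
  have hGle : ∀ x ∈ Icc (-(9 / 10) : ℝ) (9 / 10), GG (2 * ε) (ET ε δ U x) ≤ Gm := by
    intro x hx
    have hUx : -1 < U x := hpos x ⟨by linarith [hx.1], by linarith [hx.2]⟩
    rcases le_total (ET ε δ U x) 1 with h1 | h1
    · rw [GG_zero h1]; exact hGmp.le
    · have he : ET ε δ U x ≤ 1 / δ := by
        unfold ET
        apply div_le_div_of_nonneg_right _ hδ.le
        have h2 : qq ε U x ≤ 1 := by
          unfold qq
          rw [Real.exp_le_one_iff]
          have : 0 ≤ 2 * ε * (1 + U x) := by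
            apply mul_nonneg (by positivity); linarith
          linarith
        have h3 : 0 < qq ε U x := Real.exp_pos _
        calc Real.cos (2 * x) * qq ε U x ≤ 1 * qq ε U x :=
              mul_le_mul_of_nonneg_right (Real.cos_le_one _) h3.le
          _ ≤ 1 := by linarith
      set e := ET ε δ U x with hedef
      unfold GG
      rw [pp_of_ge h1, hGm]
      have h4 : (e - 1) ^ 2 * (3 * e ^ 2 + 2 * e + 1) ≤ 6 * e ^ 4 := by
        have a1 : (e - 1) ^ 2 ≤ e ^ 2 := by nlinarith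
        have a2 : 3 * e ^ 2 + 2 * e + 1 ≤ 6 * e ^ 2 := by nlinarith
        calc (e - 1) ^ 2 * (3 * e ^ 2 + 2 * e + 1) ≤ e ^ 2 * (6 * e ^ 2) := by
              apply mul_le_mul a1 a2 (by nlinarith) (by positivity)
          _ = 6 * e ^ 4 := by ring
      have h5 : e ^ 4 ≤ (1 / δ) ^ 4 := pow_le_pow_left₀ (by linarith) he 4
      rw [div_le_div_iff₀ (by positivity) (by positivity)]
      have h6 : e ^ 4 * δ ^ 4 ≤ 1 := by
        calc e ^ 4 * δ ^ 4 ≤ (1 / δ) ^ 4 * δ ^ 4 :=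
              mul_le_mul_of_nonneg_right h5 (by positivity)
          _ = 1 := by field_simp
      have h7 : (e - 1) ^ 2 * (3 * e ^ 2 + 2 * e + 1) * δ ^ 4 ≤ 6 := by
        calc (e - 1) ^ 2 * (3 * e ^ 2 + 2 * e + 1) * δ ^ 4 ≤ 6 * e ^ 4 * δ ^ 4 :=
              mul_le_mul_of_nonneg_right h4 (by positivity)
          _ ≤ 6 := by nlinarith
      nlinarith
  have s2 : 1 / 28 / Gm * ∫ x in (-(9 / 10 : ℝ))..(9 / 10),
      force ε U Ψx Ψz x * GG (2 * ε) (ET ε δ U x) ≤
      ∫ x in (-(9 / 10 : ℝ))..(9 / 10), force ε U Ψx Ψz x * wt M x := by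
    rw [← intervalIntegral.integral_const_mul]
    apply intervalIntegral.integral_mono_on (by norm_num) (ifG.const_mul _) ifw9
    intro x hx
    have h1 := hGle x hx
    have h2 := wt_ge hM hx
    have h3 := hfn x
    have h4 : 1 / 28 / Gm * GG (2 * ε) (ET ε δ U x) ≤ wt M x := by
      calc 1 / 28 / Gm * GG (2 * ε) (ET ε δ U x) ≤ 1 / 28 / Gm * Gm :=
            mul_le_mul_of_nonneg_left h1 (by positivity)
        _ = 1 / 28 := by field_simp
        _ ≤ wt M x := h2
    calc 1 / 28 / Gm * (force ε U Ψx Ψz x * GG (2 * ε) (ET ε δ U x)) =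
          force ε U Ψx Ψz x * (1 / 28 / Gm * GG (2 * ε) (ET ε δ U x)) := by ring
      _ ≤ force ε U Ψx Ψz x * wt M x := mul_le_mul_of_nonneg_left h4 h3
  -- step 3
  have s3 : ∫ x in (-(7 / 10 : ℝ))..(7 / 10), (qq ε U x) ^ 2 * pp (ET ε δ U x) ^ 2 ≤
      ∫ x in (-(9 / 10 : ℝ))..(9 / 10), (qq ε U x) ^ 2 * pp (ET ε δ U x) ^ 2 := by
    apply intervalIntegral.integral_mono_interval (by norm_num) (by norm_num) (by norm_num) _ iqp
    exact Filter.Eventually.of_forall fun x => by positivity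
  -- step 4
  have iw : ∀ a b : ℝ, IntervalIntegrable (wt M) volume a b := fun a b =>
    (wt_continuous M).intervalIntegrable a b
  have hcUw : ContinuousOn (fun x => wt M x * (1 - U x) / 2) (Icc (-1) 1) :=
    ((wt_continuous M).continuousOn.mul (continuousOn_const.sub hUc)).div_const 2
  have iUw : ∀ a b : ℝ, a ∈ Icc (-1 : ℝ) 1 → b ∈ Icc (-1 : ℝ) 1 →
      IntervalIntegrable (fun x => wt M x * (1 - U x) / 2) volume a b := fun a b ha hb =>
    (hcUw.mono (uIcc_subset_Icc ha hb)).intervalIntegrable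
  have s4 : κ0 * ∫ x in (-(7 / 10 : ℝ))..(7 / 10), wt M x * (1 - U x) / 2 ≤
      ∫ x in (-(7 / 10 : ℝ))..(7 / 10), (qq ε U x) ^ 2 * pp (ET ε δ U x) ^ 2 := by
    rw [← intervalIntegral.integral_const_mul]
    apply intervalIntegral.integral_mono_on (by norm_num)
      ((iUw _ _ (by constructor <;> norm_num) (by constructor <;> norm_num)).const_mul _) iqp7
    intro x hx
    have hxI : x ∈ Icc (-1 : ℝ) 1 := ⟨by linarith [hx.1], by linarith [hx.2]⟩
    have hUx := hpos x hxI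
    rcases le_total (U x) 1 with h1 | h1
    · have h2 : q0 ≤ qq ε U x := by
        unfold qq
        rw [hq0]
        apply Real.exp_le_exp.2
        nlinarith
      have h3 : c1 ≤ Real.cos (2 * x) := by
        rw [hc1, ← Real.cos_abs (2 * x)]
        apply Real.cos_le_cos_of_nonneg_of_le_pi (abs_nonneg _)
        · have := Real.pi_gt_d2; linarith
        · rw [abs_le]; constructor <;> linarith [hx.1, hx.2]
      have h4 : 2 ≤ ET ε δ U x := by
        unfold ET
        rw [le_div_iff₀ hδ, hδd]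
        have : c1 * q0 ≤ Real.cos (2 * x) * qq ε U x :=
          mul_le_mul h3 h2 hq0p.le (hc1p.le.trans h3)
        linarith
      have h5 : 1 ≤ pp (ET ε δ U x) := by
        rw [pp_of_ge (by linarith)]; linarith
      have h6 : q0 ^ 2 ≤ (qq ε U x) ^ 2 * pp (ET ε δ U x) ^ 2 := by
        have a1 : q0 ^ 2 ≤ (qq ε U x) ^ 2 := pow_le_pow_left₀ hq0p.le h2 2
        have a2 : (1 : ℝ) ≤ pp (ET ε δ U x) ^ 2 := one_le_pow₀ h5
        calc q0 ^ 2 = q0 ^ 2 * 1 := by ring
          _ ≤ (qq ε U x) ^ 2 * pp (ET ε δ U x) ^ 2 :=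
            mul_le_mul a1 a2 zero_le_one (by positivity)
      have h7 : wt M x * (1 - U x) / 2 ≤ 1 + M := by
        have a1 := wt_le hM hxI
        have a2 := wt_nonneg hM x
        nlinarith
      calc κ0 * (wt M x * (1 - U x) / 2) ≤ κ0 * (1 + M) :=
            mul_le_mul_of_nonneg_left h7 hκ0p.le
        _ = q0 ^ 2 := by rw [hκ0]; field_simp
        _ ≤ _ := h6
    · have h2 : κ0 * (wt M x * (1 - U x) / 2) ≤ 0 := by
        apply mul_nonpos_of_nonneg_of_nonpos hκ0p.le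
        have := mul_nonneg (wt_nonneg hM x) (sub_nonneg.2 h1)
        linarith
      have h3 : 0 ≤ (qq ε U x) ^ 2 * pp (ET ε δ U x) ^ 2 := by positivity
      linarith
  -- step 5
  have hIall : ∫ x in (-1 : ℝ)..1, wt M x * (1 - U x) / 2 =
      (m0 M - ∫ x in (-1 : ℝ)..1, U x * wt M x) / 2 := by
    have e1 : ∫ x in (-1 : ℝ)..1, wt M x * (1 - U x) / 2 =
        ∫ x in (-1 : ℝ)..1, (1 / 2 * wt M x - 1 / 2 * (U x * wt M x)) := by
      apply intervalIntegral.integral_congr; intro x _; simp only; ring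
    have i2 : IntervalIntegrable (fun x => U x * wt M x) volume (-1) 1 :=
      (hUc.mul (wt_continuous M).continuousOn).intervalIntegrable_of_Icc (by norm_num)
    rw [e1, intervalIntegral.integral_sub ((iw _ _).const_mul _) (i2.const_mul _),
      intervalIntegral.integral_const_mul, intervalIntegral.integral_const_mul, wt_integral]
    ring
  have hpt : ∀ x ∈ Icc (-1 : ℝ) 1, wt M x * (1 - U x) / 2 ≤ wt M x := by
    intro x hx
    have a1 := wt_nonneg hM x
    have a2 := hpos x hx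
    nlinarith
  have m1 : (-1 : ℝ) ∈ Icc (-1 : ℝ) 1 := by constructor <;> norm_num
  have m2 : (1 : ℝ) ∈ Icc (-1 : ℝ) 1 := by constructor <;> norm_num
  have m3 : (-(7 / 10) : ℝ) ∈ Icc (-1 : ℝ) 1 := by constructor <;> norm_num
  have m4 : (7 / 10 : ℝ) ∈ Icc (-1 : ℝ) 1 := by constructor <;> norm_num
  have l1 : ∫ x in (-1 : ℝ)..(-(7 / 10)), wt M x * (1 - U x) / 2 ≤
      ∫ x in (-1 : ℝ)..(-(7 / 10)), wt M x := by
    apply intervalIntegral.integral_mono_on (by norm_num) (iUw _ _ m1 m3) (iw _ _)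
    intro x hx
    exact hpt x ⟨hx.1, hx.2.trans (by norm_num)⟩
  have l2 : ∫ x in (7 / 10 : ℝ)..1, wt M x * (1 - U x) / 2 ≤
      ∫ x in (7 / 10 : ℝ)..1, wt M x := by
    apply intervalIntegral.integral_mono_on (by norm_num) (iUw _ _ m4 m2) (iw _ _)
    intro x hx
    exact hpt x ⟨le_trans (by norm_num) hx.1, hx.2⟩
  have a1 := intervalIntegral.integral_add_adjacent_intervals (iUw _ _ m1 m3) (iUw _ _ m3 m4)
  have a2 := intervalIntegral.integral_add_adjacent_intervals (iUw _ _ m1 m4) (iUw _ _ m4 m2)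
  have b1 := intervalIntegral.integral_add_adjacent_intervals (iw (-1) (-(7 / 10)))
    (iw (-(7 / 10)) (7 / 10))
  have b2 := intervalIntegral.integral_add_adjacent_intervals (iw (-1) (7 / 10)) (iw (7 / 10) 1)
  rw [wt_integral] at b2
  have hmid := wt_integral_mid hM
  have s5 : 7 / 20 * m0 M ≤ ∫ x in (-(7 / 10 : ℝ))..(7 / 10), wt M x * (1 - U x) / 2 := by
    rw [hIall] at a2
    linarith only [hle, l1, l2, a1, a2, b1, b2, hmid]
  -- conclusion
  have t1 := mul_le_mul_of_nonneg_left s5 hκ0p.le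
  have t2 := mul_le_mul_of_nonneg_left ((t1.trans s4).trans s3) hε.le
  have t3 := mul_le_mul_of_nonneg_left (t2.trans hstar)
    (show (0 : ℝ) ≤ 1 / 28 / Gm by positivity)
  exact (t3.trans s2).trans s1

end Pool.Agent.W2helper23.Mems
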