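import Mathlib

set_option autoImplicit false

open MeasureTheory Set Filter Topology

namespace Pool.Agent.W2helper23.Mems

/-- The differential inequality. -/
lemma ode_arg {γ Λ m η T : ℝ} (hΛ : 0 < Λ) (hm : 0 < m) (hη : 0 < η)
    {E v f : ℝ → ℝ} (hEc : ContinuousOn E (Ico 0 T)) (hE0 : E 0 = 0)
    (hlow : ∀ t ∈ Ico 0 T, -m ≤ E t)
    (hf : ∀ t ∈ Ico 0 T, IntervalIntegrable f volume 0 t)
    (hfΛ : ∀ t ∈ Ico 0 T, E t ≤ η → Λ ≤ f t)
    (heq : ∀ t ∈ Ico 0 T, γ ^ 2 * v t + E t = -∫ s in (0 : ℝ)..t, f s)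
    (hv : γ ≠ 0 → ∀ t ∈ Ico 0 T, HasDerivWithinAt E (v t) (Ico 0 T) t) :
    T ≤ 1 + 4 * m / Λ + 4 * γ ^ 2 * m / Λ := by
  -- lower bound for the integral
  have hint : ∀ t ∈ Ico 0 T, (∀ s ∈ Ioo 0 t, E s ≤ η) → γ ^ 2 * v t + E t ≤ -(Λ * t) := by
    intro t ht hs
    rw [heq t ht]
    have h1 : ∫ s in (0 : ℝ)..t, Λ ≤ ∫ s in (0 : ℝ)..t, f s := by
      apply intervalIntegral.integral_mono_on_of_le_Ioo ht.1 (by simp) (hf t ht)
      intro s hs'
      exact hfΛ s ⟨hs'.1.le, hs'.2.trans ht.2⟩ (hs s hs')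
    rw [intervalIntegral.integral_const, smul_eq_mul, sub_zero] at h1
    linarith
  have hder : γ ≠ 0 → ∀ t ∈ Ioo 0 T, HasDerivAt E (v t) t := fun h t ht =>
    (hv h t ⟨ht.1.le, ht.2⟩).hasDerivAt (Ico_mem_nhds ht.1 ht.2)
  -- step 1
  have hlt : ∀ t ∈ Ico 0 T, E t < η := by
    intro t1 ht1
    by_contra hcon
    push Not at hcon
    have hsubI : Icc 0 t1 ⊆ Ico 0 T := fun s hs => ⟨hs.1, hs.2.trans_lt ht1.2⟩
    have hcomp : IsCompact {t ∈ Icc 0 t1 | η ≤ E t} := by
      have h1 : IsClosed (Icc 0 t1 ∩ E ⁻¹' Ici η) :=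
        (hEc.mono hsubI).preimage_isClosed_of_isClosed isClosed_Icc isClosed_Ici
      exact isCompact_Icc.of_isClosed_subset h1 inter_subset_left
    obtain ⟨ts, ⟨hts1, hts2⟩, hmin⟩ := hcomp.exists_isLeast ⟨t1, ⟨ht1.1, le_rfl⟩, hcon⟩
    have htsT : ts ∈ Ico 0 T := hsubI hts1
    have hts0 : 0 < ts := by
      rcases hts1.1.eq_or_lt with h | h
      · exfalso; rw [← h, hE0] at hts2; linarith
      · exact h
    have hbelow : ∀ s ∈ Ico 0 ts, E s < η := by
      intro s hs
      by_contra hc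
      push Not at hc
      have : ts ≤ s := hmin ⟨⟨hs.1, hs.2.le.trans hts1.2⟩, hc⟩
      linarith [hs.2]
    have hJ : ∀ t ∈ Icc 0 ts, γ ^ 2 * v t + E t ≤ 0 := by
      intro t ht
      have h1 := hint t ⟨ht.1, ht.2.trans_lt htsT.2⟩
        (fun s hs => (hbelow s ⟨hs.1.le, hs.2.trans_le ht.2⟩).le)
      have : 0 ≤ Λ * t := mul_nonneg hΛ.le ht.1
      linarith
    by_cases hγ : γ = 0
    · have := hJ ts ⟨hts0.le, le_rfl⟩
      rw [hγ] at this
      linarith
    · have hγ2 : 0 < γ ^ 2 := by positivity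
      have hanti : AntitoneOn (fun t => Real.exp (t / γ ^ 2) * E t) (Icc 0 ts) := by
        apply antitoneOn_of_deriv_nonpos (convex_Icc 0 ts)
        · apply ContinuousOn.mul (by fun_prop)
          exact hEc.mono (fun s hs => ⟨hs.1, hs.2.trans_lt htsT.2⟩)
        · intro t ht
          rw [interior_Icc] at ht
          have hd := hder hγ t ⟨ht.1, ht.2.trans htsT.2⟩
          exact (DifferentiableAt.mul (by fun_prop) hd.differentiableAt).differentiableWithinAt
        · intro t ht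
          rw [interior_Icc] at ht
          have hd := hder hγ t ⟨ht.1, ht.2.trans htsT.2⟩
          have he : HasDerivAt (fun t : ℝ => Real.exp (t / γ ^ 2)) (Real.exp (t / γ ^ 2) * (1 / γ ^ 2)) t :=
            ((hasDerivAt_id t).div_const (γ ^ 2)).exp
          have h2 := he.mul hd
          have h3 : deriv (fun t => Real.exp (t / γ ^ 2) * E t) t = _ := h2.deriv
          rw [h3]
          have h4 : Real.exp (t / γ ^ 2) * (1 / γ ^ 2) * E t + Real.exp (t / γ ^ 2) * v t =
              Real.exp (t / γ ^ 2) / γ ^ 2 * (γ ^ 2 * v t + E t) := by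
            field_simp
            ring
          rw [h4]
          exact mul_nonpos_of_nonneg_of_nonpos (by positivity) (hJ t ⟨ht.1.le, ht.2.le⟩)
      have h1 := hanti ⟨le_rfl, hts0.le⟩ ⟨hts0.le, le_rfl⟩ hts0.le
      simp only [hE0, mul_zero] at h1
      have h2 : E ts ≤ 0 := by
        by_contra hc
        push Not at hc
        have := mul_pos (Real.exp_pos (ts / γ ^ 2)) hc
        linarith
      linarith
  have hJ : ∀ t ∈ Ico 0 T, γ ^ 2 * v t + E t ≤ -(Λ * t) := by
    intro t ht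
    exact hint t ht (fun s hs => (hlt s ⟨hs.1.le, hs.2.trans ht.2⟩).le)
  by_contra hcon
  push Not at hcon
  set t : ℝ := 1 + 4 * m / Λ + 4 * γ ^ 2 * m / Λ with htdef
  have a1 : 0 ≤ 4 * m / Λ := by positivity
  have a2 : 0 ≤ 4 * γ ^ 2 * m / Λ := by positivity
  have ht0 : 0 < t := by rw [htdef]; positivity
  have ht1 : 1 ≤ t := by linarith
  have htT : t ∈ Ico 0 T := ⟨ht0.le, hcon⟩
  have b1 : 4 * m ≤ Λ * t := by
    have : 4 * m / Λ ≤ t := by linarith
    rw [div_le_iff₀ hΛ] at this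
    linarith
  have b2 : 4 * γ ^ 2 * m < Λ * t := by
    have : 4 * γ ^ 2 * m / Λ < t := by linarith
    rw [div_lt_iff₀ hΛ] at this
    linarith
  by_cases hγ : γ = 0
  · have h1 := hJ t htT
    have h2 := hlow t htT
    rw [hγ] at h1
    nlinarith
  · have hγ2 : 0 < γ ^ 2 := by positivity
    have hanti : AntitoneOn (fun s => γ ^ 2 * E s - (m * s - Λ * (s ^ 2 / 2))) (Icc 0 t) := by
      apply antitoneOn_of_deriv_nonpos (convex_Icc 0 t)
      · apply ContinuousOn.sub _ (by fun_prop)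
        exact continuousOn_const.mul (hEc.mono (fun s hs => ⟨hs.1, hs.2.trans_lt htT.2⟩))
      · intro s hs
        rw [interior_Icc] at hs
        have hd := hder hγ s ⟨hs.1, hs.2.trans htT.2⟩
        exact (DifferentiableAt.sub (hd.differentiableAt.const_mul _)
          (by fun_prop)).differentiableWithinAt
      · intro s hs
        rw [interior_Icc] at hs
        have hsT : s ∈ Ico 0 T := ⟨hs.1.le, hs.2.trans htT.2⟩
        have hd := hder hγ s ⟨hs.1, hs.2.trans htT.2⟩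
        have h5 : HasDerivAt (fun s : ℝ => m * s - Λ * (s ^ 2 / 2)) (m - Λ * s) s := by
          have h6 := ((hasDerivAt_id s).const_mul m).sub
            ((((hasDerivAt_id s).pow 2).div_const 2).const_mul Λ)
          refine h6.congr_deriv ?_
          simp
        have h2 := (hd.const_mul (γ ^ 2)).sub h5
        have h3 : deriv (fun s => γ ^ 2 * E s - (m * s - Λ * (s ^ 2 / 2))) s = _ := h2.deriv
        rw [h3]
        have h7 := hJ s hsT
        have h8 := hlow s hsT
        linarith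
    have h1 := hanti ⟨le_rfl, ht0.le⟩ ⟨ht0.le, le_rfl⟩ ht0.le
    simp only [hE0, mul_zero] at h1
    have h2 := hlow t htT
    -- γ² E t ≤ m t - Λ t²/2
    have h3 : γ ^ 2 * E t ≤ m * t - Λ * (t ^ 2 / 2) := by
      norm_num at h1; linarith
    have h4 : -(γ ^ 2 * m) ≤ γ ^ 2 * E t := by nlinarith
    have h5 : m * t ≤ Λ * t * t / 4 := by nlinarith
    have h6 : Λ * t * t / 4 ≤ γ ^ 2 * m := by nlinarith
    have h7 : Λ * t ≤ Λ * t * t := by nlinarith [mul_pos hΛ ht0]
    linarith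

end Pool.Agent.W2helper23.Mems
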