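import Mathlib
import Pool.Agent.W2helper23.Mems.Defs
import Pool.Agent.W2helper23.Mems.Ineq
import Pool.Agent.W2helper23.Mems.Ode

set_option autoImplicit false

open MeasureTheory Set Filter Topology

namespace Pool.Agent.W2helper23.Mems

/-! ### The derivatives of the weight -/

lemma wt_d1 (M x : ℝ) : HasDerivAt (wt M)
    ((-4 * x + 4 * x ^ 3) + M * (-8 * x + 24 * x ^ 3 - 24 * x ^ 5 + 8 * x ^ 7)) x := by
  have h1 : HasDerivAt (fun y : ℝ => 1 - y ^ 2) (-(2 * x)) x := by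
    have := ((hasDerivAt_id x).pow 2).const_sub 1
    refine this.congr_deriv ?_
    simp
  have h2 := (h1.pow 2).add ((h1.pow 4).const_mul M)
  refine h2.congr_deriv ?_
  norm_num
  ring

lemma wt_d2 (M x : ℝ) : HasDerivAt
    (fun x : ℝ => (-4 * x + 4 * x ^ 3) + M * (-8 * x + 24 * x ^ 3 - 24 * x ^ 5 + 8 * x ^ 7))
    ((-4 + 12 * x ^ 2) + M * (-8 + 72 * x ^ 2 - 120 * x ^ 4 + 56 * x ^ 6)) x := by
  have h : ∀ n : ℕ, HasDerivAt (fun x : ℝ => x ^ n) ((n : ℝ) * x ^ (n - 1)) x :=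
    fun n => hasDerivAt_pow n x
  have h1 := (((hasDerivAt_id x).const_mul (-4)).add ((h 3).const_mul 4)).add
    ((((((hasDerivAt_id x).const_mul (-8)).add ((h 3).const_mul 24)).sub ((h 5).const_mul 24)).add
      ((h 7).const_mul 8)).const_mul M)
  refine h1.congr_deriv ?_
  norm_num
  ring

lemma wt_d3 (M x : ℝ) : HasDerivAt
    (fun x : ℝ => (-4 + 12 * x ^ 2) + M * (-8 + 72 * x ^ 2 - 120 * x ^ 4 + 56 * x ^ 6))
    (24 * x + M * (144 * x - 480 * x ^ 3 + 336 * x ^ 5)) x := by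
  have h : ∀ n : ℕ, HasDerivAt (fun x : ℝ => x ^ n) ((n : ℝ) * x ^ (n - 1)) x :=
    fun n => hasDerivAt_pow n x
  have h1 := (((h 2).const_mul 12).const_add (-4)).add
    ((((((h 2).const_mul 72).const_add (-8)).sub ((h 4).const_mul 120)).add
      ((h 6).const_mul 56)).const_mul M)
  refine h1.congr_deriv ?_
  norm_num
  ring

lemma wt_d4 (M x : ℝ) : HasDerivAt
    (fun x : ℝ => 24 * x + M * (144 * x - 480 * x ^ 3 + 336 * x ^ 5))
    (24 + M * (144 - 1440 * x ^ 2 + 1680 * x ^ 4)) x := by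
  have h : ∀ n : ℕ, HasDerivAt (fun x : ℝ => x ^ n) ((n : ℝ) * x ^ (n - 1)) x :=
    fun n => hasDerivAt_pow n x
  have h1 := ((hasDerivAt_id x).const_mul 24).add
    (((((hasDerivAt_id x).const_mul 144).sub ((h 3).const_mul 480)).add
      ((h 5).const_mul 336)).const_mul M)
  refine h1.congr_deriv ?_
  norm_num
  left
  ring

lemma wt_iter2 (M : ℝ) : iteratedDeriv 2 (wt M) =
    fun x => (-4 + 12 * x ^ 2) + M * (-8 + 72 * x ^ 2 - 120 * x ^ 4 + 56 * x ^ 6) := by
  rw [iteratedDeriv_succ', iteratedDeriv_succ', iteratedDeriv_zero]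
  have e1 : deriv (wt M) = _ := funext fun x => (wt_d1 M x).deriv
  rw [e1]
  exact funext fun x => (wt_d2 M x).deriv

lemma wt_iter4 (M : ℝ) : iteratedDeriv 4 (wt M) =
    fun x => 24 + M * (144 - 1440 * x ^ 2 + 1680 * x ^ 4) := by
  rw [iteratedDeriv_succ', iteratedDeriv_succ', iteratedDeriv_succ', iteratedDeriv_succ',
    iteratedDeriv_zero]
  have e1 : deriv (wt M) = _ := funext fun x => (wt_d1 M x).deriv
  rw [e1]
  have e2 := funext fun x => (wt_d2 M x).deriv
  rw [e2]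
  have e3 := funext fun x => (wt_d3 M x).deriv
  rw [e3]
  exact funext fun x => (wt_d4 M x).deriv

lemma wt_isTest (M : ℝ) : IsTest (wt M) := by
  refine ⟨?_, ?_, ?_, ?_, ?_⟩
  · unfold wt; fun_prop
  · simp [wt]
  · simp [wt]
  · rw [(wt_d1 M (-1)).deriv]; norm_num
  · rw [(wt_d1 M 1).deriv]; norm_num

/-- the operator applied to the weight -/
noncomputable def Lw (β τ M x : ℝ) : ℝ :=
  β * (24 + M * (144 - 1440 * x ^ 2 + 1680 * x ^ 4)) -
    τ * ((-4 + 12 * x ^ 2) + M * (-8 + 72 * x ^ 2 - 120 * x ^ 4 + 56 * x ^ 6))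

lemma Lw_continuous (β τ M : ℝ) : Continuous (Lw β τ M) := by unfold Lw; fun_prop

lemma Lw_eq (β τ M x : ℝ) :
    β * iteratedDeriv 4 (wt M) x - τ * iteratedDeriv 2 (wt M) x = Lw β τ M x := by
  rw [wt_iter2, wt_iter4]; rfl

lemma Lw_ge {β τ : ℝ} (hβ : 0 < β) (hτ : 0 ≤ τ) {x : ℝ} (hx : x ∈ Icc (-1 : ℝ) 1) :
    -((75 * τ + 48 * τ * (τ / (24 * β))) * wt (τ / (24 * β)) x) ≤ Lw β τ (τ / (24 * β)) x := by
  set M := τ / (24 * β) with hM
  have hM0 : 0 ≤ M := by positivity
  have hβM : β * M = τ / 24 := by rw [hM]; field_simp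
  set s := 1 - x ^ 2 with hs
  have hx2 : x ^ 2 = 1 - s := by rw [hs]; ring
  have hs0 : 0 ≤ s := by rw [hs]; nlinarith [hx.1, hx.2]
  have hs1 : s ≤ 1 := by rw [hs]; nlinarith
  have e4 : x ^ 4 = (1 - s) ^ 2 := by rw [← hx2]; ring
  have e6 : x ^ 6 = (1 - s) ^ 3 := by rw [← hx2]; ring
  have hL : Lw β τ M x = 24 * β + (β * M) * (384 - 1920 * s + 1680 * s ^ 2) -
      τ * (8 - 12 * s) - τ * M * (48 * s ^ 2 - 56 * s ^ 3) := by
    unfold Lw
    rw [e4, e6, hx2]; ring
  have hw : wt M x = s ^ 2 + M * s ^ 4 := by unfold wt; rw [← hs]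
  rw [hL, hw, hβM]
  have h1 : 0 ≤ 8 - 68 * s + 145 * s ^ 2 := by nlinarith [sq_nonneg (s - 34 / 145)]
  have h2 : 0 ≤ τ * (8 - 68 * s + 145 * s ^ 2) := mul_nonneg hτ h1
  have h3 : 0 ≤ τ * M := mul_nonneg hτ hM0
  have h4 : 0 ≤ τ * M * s ^ 3 := mul_nonneg h3 (by positivity)
  have h5 : 0 ≤ (75 * τ + 48 * τ * M) * (M * s ^ 4) := by positivity
  nlinarith

/-- continuity of parametric integrals -/
lemma param_cont {T : ℝ} {u : ℝ → ℝ → ℝ} {w : ℝ → ℝ} (hw : Continuous w)
    (hu : ContinuousOn (fun p : ℝ × ℝ => u p.1 p.2) (Ico 0 T ×ˢ Icc (-1) 1)) :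
    ContinuousOn (fun t => ∫ x in (-1 : ℝ)..1, u t x * w x) (Ico 0 T) := by
  -- localize on compact subintervals
  have key : ∀ t1 ∈ Ico 0 T, ContinuousOn (fun t => ∫ x in (-1 : ℝ)..1, u t x * w x) (Icc 0 t1) := by
    intro t1 ht1
    set ct : ℝ → ℝ := fun y => max 0 (min y t1) with hct
    set cx : ℝ → ℝ := fun y => max (-1) (min y 1) with hcx
    have hctm : ∀ y, ct y ∈ Icc 0 t1 := fun y => ⟨le_max_left _ _, max_le ht1.1 (min_le_right _ _)⟩
    have hcxm : ∀ y, cx y ∈ Icc (-1 : ℝ) 1 := fun y =>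
      ⟨le_max_left _ _, max_le (by norm_num) (min_le_right _ _)⟩
    have hcont : Continuous (Function.uncurry fun t x => u (ct t) (cx x) * w x) := by
      have c1 : Continuous (fun p : ℝ × ℝ => ((ct p.1, cx p.2) : ℝ × ℝ)) := by
        simp only [hct, hcx]; fun_prop
      have c2 := hu.comp_continuous c1 (fun p => ⟨⟨(hctm p.1).1, (hctm p.1).2.trans_lt ht1.2⟩,
        hcxm p.2⟩)
      exact c2.mul (hw.comp continuous_snd)
    have h1 : Continuous (fun t => ∫ x in (-1 : ℝ)..1, u (ct t) (cx x) * w x) :=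
      intervalIntegral.continuous_parametric_intervalIntegral_of_continuous' hcont (-1) 1
    refine h1.continuousOn.congr ?_
    intro t ht
    simp only
    have e1 : ct t = t := by simp only [hct]; rw [min_eq_left ht.2, max_eq_right ht.1]
    rw [e1]
    apply intervalIntegral.integral_congr
    intro x hx
    rw [uIcc_of_le (by norm_num)] at hx
    have e2 : cx x = x := by simp only [hcx]; rw [min_eq_left hx.2, max_eq_right hx.1]
    simp only [e2]
  intro t ht
  obtain ⟨t1, h1, h2⟩ := exists_between ht.2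
  have h3 := key t1 ⟨ht.1.trans h1.le, h2⟩ t ⟨ht.1, h1.le⟩
  apply h3.mono_of_mem_nhdsWithin
  have h4 : Iio t1 ∈ 𝓝[Ico 0 T] t := mem_nhdsWithin_of_mem_nhds (Iio_mem_nhds h1)
  filter_upwards [h4, self_mem_nhdsWithin] with y hy1 hy2
  exact ⟨hy2.1, le_of_lt hy1⟩

/-- **Finite time singularity.** -/
theorem finite_time {β τ ε : ℝ} (hβ : 0 < β) (hτ : 0 ≤ τ) (hε : 0 < ε) :
    ∃ ls : ℝ, ∀ lam : ℝ, ls < lam → ∀ γ : ℝ, ∃ T0 : ℝ,
      ∀ (T : ℝ) (u : ℝ → ℝ → ℝ) (ψ ψx ψz : ℝ → ℝ × ℝ → ℝ),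
        IsSolution β τ γ ε lam T u ψ ψx ψz → T ≤ T0 := by
  set M := τ / (24 * β) with hM
  have hM0 : 0 ≤ M := by positivity
  have hm0 := m0_pos hM0
  obtain ⟨c0, hc0, hforce⟩ := force_lower hε hM0
  set C : ℝ := 75 * τ + 48 * τ * M with hC
  have hC0 : 0 ≤ C := by positivity
  set L1 : ℝ := ∫ x in (-1 : ℝ)..1, Lw β τ M x with hL1
  refine ⟨|C * (m0 M + m0 M / 10) + L1| / c0, ?_⟩
  intro lam hlam
  have hlam0 : 0 < lam := lt_of_le_of_lt (by positivity) hlam
  set Λ : ℝ := lam * c0 - (C * (m0 M + m0 M / 10) + L1) with hΛd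
  have hΛ : 0 < Λ := by
    rw [div_lt_iff₀ hc0] at hlam
    have := le_abs_self (C * (m0 M + m0 M / 10) + L1)
    linarith
  intro γ
  refine ⟨1 + 4 * m0 M / Λ + 4 * γ ^ 2 * m0 M / Λ, ?_⟩
  intro T u ψ ψx ψz hs
  obtain ⟨v, hv, hweak⟩ := hs.weak (wt M) (wt_isTest M)
  have hEc := param_cont (wt_continuous M) hs.continuousOn
  have hac := param_cont (Lw_continuous β τ M) hs.continuousOn
  have huc : ∀ t ∈ Ico 0 T, ContinuousOn (u t) (Icc (-1) 1) := fun t ht =>
    (hs.contDiffOn t ht).continuousOn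
  have iw : IntervalIntegrable (wt M) volume (-1) 1 := (wt_continuous M).intervalIntegrable _ _
  have iL : IntervalIntegrable (Lw β τ M) volume (-1) 1 :=
    (Lw_continuous β τ M).intervalIntegrable _ _
  have iuw : ∀ t ∈ Ico 0 T, IntervalIntegrable (fun x => u t x * wt M x) volume (-1) 1 :=
    fun t ht => ((huc t ht).mul (wt_continuous M).continuousOn).intervalIntegrable_of_Icc (by norm_num)
  have iuL : ∀ t ∈ Ico 0 T, IntervalIntegrable (fun x => u t x * Lw β τ M x) volume (-1) 1 :=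
    fun t ht => ((huc t ht).mul (Lw_continuous β τ M).continuousOn).intervalIntegrable_of_Icc
      (by norm_num)
  refine ode_arg (E := fun t => ∫ x in (-1 : ℝ)..1, u t x * wt M x) (v := v)
    (f := fun s => (∫ x in (-1 : ℝ)..1, u s x * Lw β τ M x) +
      lam * ∫ x in (-1 : ℝ)..1, force ε (u s) (ψx s) (ψz s) x * wt M x)
    hΛ hm0 (by positivity : 0 < m0 M / 10) hEc ?_ ?_ ?_ ?_ ?_ hv
  · -- initial value
    rw [intervalIntegral.integral_congr (g := fun _ => (0 : ℝ))]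
    · simp
    · intro x hx
      rw [uIcc_of_le (by norm_num)] at hx
      simp only [hs.initial x hx, zero_mul]
  · -- lower bound
    intro t ht
    rw [← wt_integral, ← intervalIntegral.integral_neg]
    apply intervalIntegral.integral_mono_on (by norm_num) iw.neg (iuw t ht)
    intro x hx
    have h1 := hs.above t ht x hx
    have h2 := wt_nonneg hM0 x
    simp only [Pi.neg_apply]
    nlinarith
  · -- integrability
    intro t ht
    apply IntervalIntegrable.add
    · apply ContinuousOn.intervalIntegrable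
      rw [uIcc_of_le ht.1]
      exact hac.mono (fun s hs' => ⟨hs'.1, hs'.2.trans_lt ht.2⟩)
    · exact (hweak t ht).1.const_mul lam
  · -- the lower bound of the right side
    intro t ht hle
    obtain ⟨hcm, hcp, -, -⟩ := hs.clamped t ht
    have h1 := hforce (u t) (ψ t) (ψx t) (ψz t) (hs.potential t ht) (hs.contDiffOn t ht) hcm hcp
      (hs.above t ht) (hs.integrable t ht) hle
    have h2 : -(C * (m0 M + ∫ x in (-1 : ℝ)..1, u t x * wt M x)) ≤
        (∫ x in (-1 : ℝ)..1, u t x * Lw β τ M x) + L1 := by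
      have e1 : -(C * (m0 M + ∫ x in (-1 : ℝ)..1, u t x * wt M x)) =
          ∫ x in (-1 : ℝ)..1, -(C * wt M x + C * (u t x * wt M x)) := by
        rw [intervalIntegral.integral_neg, intervalIntegral.integral_add (iw.const_mul C)
          ((iuw t ht).const_mul C), intervalIntegral.integral_const_mul,
          intervalIntegral.integral_const_mul, wt_integral]
        ring
      have e2 : (∫ x in (-1 : ℝ)..1, u t x * Lw β τ M x) + L1 =
          ∫ x in (-1 : ℝ)..1, (u t x * Lw β τ M x + Lw β τ M x) := by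
        rw [intervalIntegral.integral_add (iuL t ht) iL]
      rw [e1, e2]
      apply intervalIntegral.integral_mono_on (by norm_num)
        ((iw.const_mul C).add ((iuw t ht).const_mul C)).neg ((iuL t ht).add iL)
      intro x hx
      have h3 := Lw_ge hβ hτ hx
      rw [← hM, ← hC] at h3
      have h4 := hs.above t ht x hx
      have h5 : 0 ≤ (1 + u t x) * (Lw β τ M x + C * wt M x) :=
        mul_nonneg (by linarith) (by linarith)
      simp only [Pi.neg_apply]
      linarith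
    have h6 : C * (m0 M + ∫ x in (-1 : ℝ)..1, u t x * wt M x) ≤ C * (m0 M + m0 M / 10) := by
      gcongr
    have h7 : lam * c0 ≤ lam * ∫ x in (-1 : ℝ)..1, force ε (u t) (ψx t) (ψz t) x * wt M x :=
      mul_le_mul_of_nonneg_left h1 hlam0.le
    rw [hΛd]
    linarith
  · -- the identity
    intro t ht
    have h1 := (hweak t ht).2
    simp only [Lw_eq] at h1
    exact h1

end Pool.Agent.W2helper23.Mems
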